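import Pool.Agent.MP_582538_al.W.CoreW

set_option autoImplicit false

namespace Pool.Agent.MP_582538_al

open Module

section Proj

variable {k E B : Type} [Field k] [Ring E] [Algebra k E] {G : GAlg k E B}
variable {C M : Type} [AddCommGroup M] [Module E M] [Module k M] [IsScalarTower k E M]
variable (L : LinCx G C M)

open Classical in
/-- The projection onto a bigraded piece. -/
noncomputable def LinCx.pj (q j : ℤ) : End k M :=
  L.kb.constr ℕ (fun v => if (L.row v.2 : ℤ) = q ∧ (L.jv v : ℤ) = j then L.kb v else 0)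

theorem LinCx.pj_self {q j : ℤ} {m : M} (hm : m ∈ L.GM q j) : L.pj q j m = m := by
  refine Sp_ext L.kb (L.pj q j) LinearMap.id ?_ (L.mem_GM.mp hm)
  intro v hv
  rw [LinCx.pj, Basis.constr_basis, if_pos hv, LinearMap.id_apply]

theorem LinCx.pj_ne {q j q' j' : ℤ} {m : M} (hm : m ∈ L.GM q' j') (h : ¬ (q' = q ∧ j' = j)) :
    L.pj q j m = 0 := by
  refine Sp_ext L.kb (L.pj q j) 0 ?_ (L.mem_GM.mp hm)
  rintro v ⟨h1, h2⟩
  rw [LinCx.pj, Basis.constr_basis, if_neg (by omega), LinearMap.zero_apply]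

attribute [irreducible] LinCx.pj

theorem LinCx.pj_mem (q j : ℤ) (m : M) : L.pj q j m ∈ L.GM q j := by
  refine Sp_map L.kb (L.pj q j) _ ?_ (mem_Sp_true _ m)
  intro v _
  by_cases hv : (L.row v.2 : ℤ) = q ∧ (L.jv v : ℤ) = j
  · have := L.kb_mem v
    rw [hv.1, hv.2] at this
    rwa [L.pj_self this]
  · rw [L.pj_ne (L.kb_mem v) hv]
    exact Submodule.zero_mem _

theorem LinCx.pj_comm {r s : ℤ} {h : End k M} (hh : h ∈ L.HomS r s) {q j q' j' : ℤ}
    (e1 : q' = q + r) (e2 : j' = j + s) (m : M) : L.pj q' j' (h m) = h (L.pj q j m) := by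
  refine Sp_ext L.kb (L.pj q' j' ∘ₗ h) (h ∘ₗ L.pj q j) ?_ (mem_Sp_true _ m)
  intro v _
  rw [LinearMap.comp_apply, LinearMap.comp_apply]
  by_cases hv : (L.row v.2 : ℤ) = q ∧ (L.jv v : ℤ) = j
  · have h1 := L.kb_mem v
    rw [hv.1, hv.2] at h1
    rw [L.pj_self h1, e1, e2, L.pj_self (L.HomS_apply hh h1)]
  · rw [L.pj_ne (L.kb_mem v) hv, map_zero, L.pj_ne (hh v) (by omega)]

theorem LinCx.aug_pj (m : M) : L.aug (L.pj 0 0 m) = L.aug m := by
  refine Sp_ext L.kb (L.aug ∘ₗ L.pj 0 0) L.aug ?_ (mem_Sp_true _ m)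
  intro v _
  rw [LinearMap.comp_apply]
  by_cases hv : (L.row v.2 : ℤ) = 0 ∧ (L.jv v : ℤ) = 0
  · have h1 := L.kb_mem v
    rw [hv.1, hv.2] at h1
    rw [L.pj_self h1]
  · rw [L.pj_ne (L.kb_mem v) hv, map_zero, L.aug_GM hv (L.kb_mem v)]

/-- A homogeneous splitting of the differential with the usual side conditions. -/
theorem LinCx.exists_sdr : ∃ c ∈ L.HomS 1 0, (∀ m, L.d (c (L.d m)) = L.d m) ∧
    (∀ m, c (L.d (c m)) = c m) ∧ ∀ m, c (c m) = 0 := by
  set d : End k M := L.d.restrictScalars k with hd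
  have hdH : d ∈ L.HomS (-1) 0 := L.HomS_d
  obtain ⟨g0, hg0⟩ := d.rangeRestrict.exists_rightInverse_of_surjective
    (LinearMap.range_eq_top.mpr d.surjective_rangeRestrict)
  obtain ⟨g, hg⟩ := LinearMap.exists_extend g0
  have hg' : ∀ m, d (g (d m)) = d m := by
    intro m
    have h1 := LinearMap.congr_fun hg ⟨d m, m, rfl⟩
    have h2 := congrArg Subtype.val (LinearMap.congr_fun hg0 ⟨d m, m, rfl⟩)
    simp only [LinearMap.comp_apply, Submodule.subtype_apply] at h1
    rw [h1]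
    exact h2
  let c0 : End k M := L.kb.constr ℕ (fun v => L.pj (L.row v.2 + 1) (L.jv v) (g (L.kb v)))
  have c0H : c0 ∈ L.HomS 1 0 := by
    intro v
    rw [Basis.constr_basis, add_zero]
    exact L.pj_mem _ _ _
  have c0_apply : ∀ q j, ∀ m ∈ L.GM q j, c0 m = L.pj (q + 1) j (g m) := by
    intro q j m hm
    refine Sp_ext L.kb c0 (L.pj (q + 1) j ∘ₗ g) ?_ (L.mem_GM.mp hm)
    rintro v ⟨h1, h2⟩
    rw [Basis.constr_basis, h1, h2, LinearMap.comp_apply]
  have h0 : d * c0 * d = d := by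
    refine L.kb.ext fun v => ?_
    have h1 := hdH v
    rw [End.mul_apply, End.mul_apply, c0_apply _ _ _ h1,
      ← L.pj_comm hdH (q' := L.row v.2 + -1) (j' := L.jv v + 0) (by omega) (by omega),
      hg', L.pj_self h1]
  have hdd : d * d = 0 := by ext m; exact L.dd m
  set c1 : End k M := c0 * d * c0 with hc1
  have c1H : c1 ∈ L.HomS 1 0 :=
    L.HomS_mul (L.HomS_mul c0H hdH rfl rfl) c0H (by omega) (by omega)
  have h1 : d * c1 * d = d := by
    have : d * c1 * d = d * c0 * d * c0 * d := by simp only [hc1, mul_assoc]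
    rw [this, h0, h0]
  have h2 : c1 * d * c1 = c1 := by
    have : c1 * d * c1 = c0 * (d * c0 * d * c0 * d) * c0 := by simp only [hc1, mul_assoc]
    rw [this, h0, h0]
  set c : End k M := c1 * (1 - c1 * d) with hc
  have h3 : c * d = c1 * d := by
    rw [hc, mul_assoc, sub_mul, mul_assoc c1 d d, hdd]
    simp
  have h4 : d * (c * d) = d := by rw [h3, ← mul_assoc, h1]
  have h5 : c * d * c = c := by rw [h3, hc, ← mul_assoc, h2]
  have h6 : c * c = 0 := by
    rw [hc, ← mul_assoc, mul_assoc c1 _ c1, sub_mul, h2]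
    simp
  refine ⟨c, L.HomS_mul c1H (Submodule.sub_mem _ L.HomS_one
    (L.HomS_mul c1H hdH (by omega) (by omega))) (by omega) (by omega), fun m => ?_, fun m => ?_,
    fun m => ?_⟩
  · exact LinearMap.congr_fun h4 m
  · exact LinearMap.congr_fun h5 m
  · exact LinearMap.congr_fun h6 m

theorem LinCx.harm_zero {c : End k M} (hc : c ∈ L.HomS 1 0)
    (h1 : ∀ m, L.d (c (L.d m)) = L.d m) (h2 : ∀ m, c (L.d (c m)) = c m) (h3 : ∀ m, c (c m) = 0)
    {q j : ℤ} (hex : L.Ex q j) (h0 : ¬ (q = 0 ∧ j = 0)) {m : M} (hm : m ∈ L.GM q j) :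
    m - L.d (c m) - c (L.d m) = 0 := by
  have e1 : L.d (c m) ∈ L.GM q j := by
    have := L.d_GM (L.HomS_apply hc hm)
    rwa [add_sub_cancel_right, add_zero] at this
  have e2 : c (L.d m) ∈ L.GM q j := by
    have := L.HomS_apply hc (L.d_GM hm)
    rwa [sub_add_cancel, add_zero] at this
  have e3 := Submodule.sub_mem _ (Submodule.sub_mem _ hm e1) e2
  obtain ⟨w, _, hw⟩ := hex _ e3 (by rw [map_sub, map_sub, L.dd, h1]; simp)
    (L.aug_GM h0 e3)
  have e4 : c (L.d w) = 0 := by rw [hw, map_sub, map_sub, h2, h3]; simp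
  rw [← hw, ← h1, e4, map_zero]

/-- A frame from a finite family of homogeneous idempotents. -/
theorem LinCx.exists_frame (hfin : ∀ q j, FiniteDimensional k (L.GM q j)) (S : Finset (ℕ × ℕ))
    (π : ℕ × ℕ → End k M) (hmem : ∀ s m, π s m ∈ L.GM s.1 (s.1 + s.2 : ℕ))
    (hpj : ∀ s m, π s (L.pj s.1 (s.1 + s.2 : ℕ) m) = π s m) (hid : ∀ s m, π s (π s m) = π s m)
    (hsmul : ∀ (e : E) m, (∀ s ∈ S, π s m = 0) → ∀ s ∈ S, π s (e • m) = 0)
    (hd : ∀ m, (∀ s ∈ S, π s m = 0) → ∀ s ∈ S, π s (L.d m) = 0) :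
    ∃ (T : Type) (_ : Fintype T) (Fr : Frame L T), (∀ m, m ∈ Fr.Y ↔ ∀ s ∈ S, π s m = 0) ∧
      (∀ m, Fr.inc Fr.u m = ∑ s ∈ S, π s m) ∧
      (∀ a, ∃ s ∈ S, Fr.rw a = s.1 ∧ Fr.jw a = s.1 + s.2) ∧
      ∑ a, (-1 : k) ^ (Fr.jw a + Fr.rw a) =
        ∑ s ∈ S, (-1 : k) ^ s.2 * finrank k (LinearMap.range (π s)) := by
  classical
  have hf : ∀ s, FiniteDimensional k (LinearMap.range (π s)) := fun s =>
    Submodule.finiteDimensional_of_le (S₂ := L.GM s.1 (s.1 + s.2 : ℕ)) (by
      rintro _ ⟨m, rfl⟩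
      exact hmem s m)
  let bs : ∀ s, Basis (Fin (finrank k (LinearMap.range (π s)))) k (LinearMap.range (π s)) :=
    fun s => finBasis k _
  have hu : ∀ s i, (bs s i : M) ∈ L.GM s.1 (s.1 + s.2 : ℕ) := by
    intro s i
    obtain ⟨m, hm⟩ := (bs s i).2
    rw [← hm]
    exact hmem s m
  have hfix : ∀ s (x : LinearMap.range (π s)), (π s).rangeRestrict x = x := by
    rintro s ⟨_, m, rfl⟩
    exact Subtype.ext (hid s m)
  have hz : ∀ s {q j : ℤ} {m : M}, m ∈ L.GM q j → ¬ (q = s.1 ∧ j = (s.1 + s.2 : ℕ)) →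
      (π s).rangeRestrict m = 0 := by
    intro s q j m hm h
    apply Subtype.ext
    change π s m = 0
    rw [← hpj, L.pj_ne hm h, map_zero]
  have hY : ∀ m, (∀ a : (Σ s : S, Fin (finrank k (LinearMap.range (π s)))),
      ((bs a.1).coord a.2 ∘ₗ (π a.1).rangeRestrict) m = 0) ↔ ∀ s ∈ S, π s m = 0 := by
    intro m
    constructor
    · intro h s hs
      have : (π s).rangeRestrict m = 0 := (bs s).ext_elem fun i => by
        simpa using h ⟨⟨s, hs⟩, i⟩
      exact congrArg Subtype.val this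
    · intro h a
      have : (π a.1).rangeRestrict m = 0 := Subtype.ext (h _ a.1.2)
      rw [LinearMap.comp_apply, this, map_zero]
  refine ⟨Σ s : S, Fin (finrank k (LinearMap.range (π s))), inferInstance,
    { u := fun a => bs a.1 a.2
      lam := fun a => (bs a.1).coord a.2 ∘ₗ (π a.1).rangeRestrict
      rw := fun a => a.1.1.1
      jw := fun a => a.1.1.1 + a.1.1.2
      le := fun a => Nat.le_add_right _ _
      u_mem := fun a => hu _ _
      lam_zero := ?_
      dual_self := ?_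
      dual_ne := ?_
      smul_mem := fun e m hm => (hY _).mpr (hsmul e m ((hY m).mp hm))
      d_mem := fun m hm => (hY _).mpr (hd m ((hY m).mp hm)) }, hY, ?_,
    fun a => ⟨a.1.1, a.1.2, rfl, rfl⟩, ?_⟩
  · intro a v hv
    rw [LinearMap.comp_apply, hz _ (L.kb_mem v) (by omega), map_zero]
  · intro a
    rw [LinearMap.comp_apply, hfix]
    simp
  · rintro ⟨s, i⟩ ⟨t, j⟩ hab
    by_cases hst : s = t
    · subst hst
      have : j ≠ i := fun h => hab (by rw [h])
      rw [LinearMap.comp_apply, hfix]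
      simp [this]
    · rw [LinearMap.comp_apply, hz _ (hu _ _), map_zero]
      rintro ⟨h1, h2⟩
      dsimp only at h1 h2
      apply hst
      apply Subtype.ext
      apply Prod.ext <;> omega
  · intro m
    rw [Frame.inc_apply, Fintype.sum_sigma, ← Finset.sum_coe_sort S]
    refine Finset.sum_congr rfl fun s _ => ?_
    have := congrArg Subtype.val ((bs s).sum_repr ((π s).rangeRestrict m))
    rw [AddSubmonoidClass.coe_finsetSum] at this
    exact this
  · rw [Fintype.sum_sigma, ← Finset.sum_coe_sort S]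
    refine Finset.sum_congr rfl fun s _ => ?_
    simp only [Finset.sum_const, Finset.card_univ, Fintype.card_fin, nsmul_eq_mul]
    rw [mul_comm, neg_one_pow_congr' (b := s.1.2) (by omega)]

end Proj

variable {k E B : Type} [Field k] [Ring E] [Algebra k E] {H : Hopf k E B}
variable {C M : Type} [AddCommGroup M] [Module E M] [Module k M] [IsScalarTower k E M]
variable (L : LinCx H.toGAlg C M)

/-- The rigidity theorem for a linear complex over a graded Hopf algebra. -/
theorem LinCx.straddle (hfin : ∀ q j, FiniteDimensional k (L.GM q j)) {J n : ℕ} (hJ : 1 ≤ J)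
    (hex0 : ∀ q : ℤ, L.Ex q q) (hbig : ∀ q j : ℤ, J ≤ j → j ≤ q + n → L.Ex q j)
    (hn : ∀ q : ℤ, L.Ex q (q + (n + 1 : ℕ)))
    (hχ : ∑ i ∈ Finset.range n, (-1 : k) ^ i *
        ∑ q ∈ Finset.range (J - i), (finrank k (L.GM q (q + i : ℕ)) : k) +
      (-1 : k) ^ n * ∑ q ∈ Finset.range (J - n), (finrank k (L.GM q (q + n : ℕ) ⊓
        LinearMap.ker (L.d.restrictScalars k) : Submodule k M) : k) = 1)
    {δ : ℕ} (hδ : 1 ≤ δ) (p : ℕ) (hyp : ∀ q i : ℕ, i ≤ n → n + 1 < i + δ →
      L.Ex (q + p : ℕ) ((q + p : ℕ) + (i + δ : ℕ)) ∨ (¬ (q = 0 ∧ i = 0) ∧ L.Ex q (q + i))) :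
    L.Ex p (p + δ) := by
  classical
  obtain ⟨c, hc, h1, h2, h3⟩ := L.exists_sdr
  set d : End k M := L.d.restrictScalars k with hd
  have hdH : d ∈ L.HomS (-1) 0 := L.HomS_d
  have hcd : ∀ {q j : ℤ} {m : M}, m ∈ L.GM q j → c (L.d m) ∈ L.GM q j := by
    intro q j m hm
    have := L.HomS_apply hc (L.d_GM hm)
    rwa [sub_add_cancel, add_zero] at this
  let S : Finset (ℕ × ℕ) :=
    (Finset.range J ×ˢ Finset.range (n + 1)).filter fun s => s.1 + s.2 < J
  have hS : ∀ s, s ∈ S ↔ s.1 + s.2 < J ∧ s.2 ≤ n := by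
    intro s
    simp only [S, Finset.mem_filter, Finset.mem_product, Finset.mem_range]
    omega
  obtain ⟨π, πlt, πeq⟩ : ∃ π : ℕ × ℕ → End k M,
      (∀ s, s.2 ≠ n → ∀ m, π s m = L.pj s.1 (s.1 + s.2 : ℕ) m) ∧ ∀ s, s.2 = n → ∀ m, π s m =
        L.pj s.1 (s.1 + s.2 : ℕ) m - c (L.d (L.pj s.1 (s.1 + s.2 : ℕ) m)) := by
    refine ⟨fun s => (if s.2 = n then 1 - c * d else 1) * L.pj s.1 (s.1 + s.2 : ℕ), ?_, ?_⟩
    · intro s hs m
      simp only [if_neg hs, one_mul]
    · intro s hs m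
      simp only [if_pos hs]
      rfl
  have π0 : ∀ s m, L.pj s.1 (s.1 + s.2 : ℕ) m = 0 → π s m = 0 := by
    intro s m h
    by_cases hs : s.2 = n
    · rw [πeq s hs, h, map_zero, map_zero, sub_zero]
    · rw [πlt s hs, h]
  have hmem : ∀ s m, π s m ∈ L.GM s.1 (s.1 + s.2 : ℕ) := by
    intro s m
    by_cases hs : s.2 = n
    · rw [πeq s hs]
      exact Submodule.sub_mem _ (L.pj_mem _ _ _) (hcd (L.pj_mem _ _ _))
    · rw [πlt s hs]
      exact L.pj_mem _ _ _
  have low : ∀ m, (∀ s ∈ S, π s m = 0) → ∀ q j : ℤ, j < J → j < q + n → L.pj q j m = 0 := by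
    intro m hm q j hj hq
    by_cases h0 : q < 0 ∨ j < q
    · exact L.GM_zero h0 (L.pj_mem _ _ _)
    have := hm (q.toNat, (j - q).toNat) ((hS _).mpr (by dsimp only; omega))
    rw [πlt _ (by dsimp only; omega)] at this
    convert this using 3 <;> (dsimp only; omega)
  have top : ∀ m, (∀ s ∈ S, π s m = 0) → ∀ q j : ℤ, j < J → j = q + n →
      L.pj q j m = c (L.d (L.pj q j m)) := by
    intro m hm q j hj hq
    by_cases h0 : q < 0
    · rw [L.GM_zero (Or.inl h0) (L.pj_mem q j m), map_zero, map_zero]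
    have := hm (q.toNat, n) ((hS _).mpr (by dsimp only; omega))
    rw [πeq _ rfl, sub_eq_zero] at this
    have e1 : ((q.toNat : ℕ) : ℤ) = q := by omega
    have e2 : ((q.toNat + n : ℕ) : ℤ) = j := by omega
    dsimp only at this
    rwa [e1, e2] at this
  obtain ⟨T, _, Fr, hY, hinc, hrw, hχ'⟩ := L.exists_frame hfin S π hmem (by
      intro s m
      by_cases hs : s.2 = n
      · rw [πeq s hs, πeq s hs, L.pj_self (L.pj_mem _ _ m)]
      · rw [πlt s hs, πlt s hs, L.pj_self (L.pj_mem _ _ m)]) (by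
      intro s m
      by_cases hs : s.2 = n
      · rw [πeq s hs (π s m), L.pj_self (hmem s m), πeq s hs m, map_sub, h1]
        simp
      · rw [πlt s hs (π s m), L.pj_self (hmem s m)]) (by
      intro e m hm s hs
      refine Sp_ext H.b (π s ∘ₗ (LinearMap.toSpanSingleton E M m).restrictScalars k) 0 ?_
        (mem_Sp_true _ e)
      intro β _
      change π s (H.b β • m) = 0
      by_cases hβ : β = H.one
      · rw [hβ, H.b_one, one_smul, hm s hs]
      · have h4 : H.deg β ≠ 0 := fun h0 => hβ (H.eq_one β h0)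
        have h5 := (hS s).mp hs
        refine π0 s _ ?_
        refine (L.pj_comm (L.HomS_lsmul (basis_mem_Sp H.b (i := β) rfl)) (q := s.1)
          (j := (s.1 + s.2 : ℕ) - H.deg β) (by omega) (by omega) m).trans ?_
        rw [low m hm _ _ (by omega) (by omega), map_zero]) (by
      intro m hm s hs
      have h5 := (hS s).mp hs
      refine π0 s _ ?_
      refine (L.pj_comm hdH (q := s.1 + 1) (j := (s.1 + s.2 : ℕ)) (by omega) (by omega) m).trans ?_
      rw [low m hm _ _ (by omega) (by omega), map_zero])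
  have sum0 : ∀ {q j : ℤ} {m : M}, m ∈ L.GM q j → (J ≤ j ∨ q + n < j) → Fr.inc Fr.u m = 0 := by
    intro q j m hm h
    rw [hinc]
    refine Finset.sum_eq_zero fun s hs => π0 s m (L.pj_ne hm ?_)
    have := (hS s).mp hs
    omega
  have sum1 : ∀ {q i : ℕ} {m : M}, m ∈ L.GM q (q + i : ℕ) → (q, i) ∈ S →
      Fr.inc Fr.u m = π (q, i) m := by
    intro q i m hm h
    rw [hinc, Finset.sum_eq_single_of_mem _ h]
    intro s _ hs
    refine π0 s m (L.pj_ne hm fun h0 => hs ?_)
    apply Prod.ext <;> (dsimp only; omega)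
  refine Fr.core c hc ?_ h1 ?_ ?_ ?_ hex0 (fun r s => s = r + 1 ∨ (r = p ∧ s = r + δ)) ?_
    (fun r => Or.inl rfl) p _ (Or.inr ⟨rfl, rfl⟩)
  · intro m hm
    rw [hY] at hm ⊢
    intro s hs
    have h5 := (hS s).mp hs
    have h6 := L.pj_comm hc (q := s.1 - 1) (j := (s.1 + s.2 : ℕ)) (q' := s.1)
      (j' := (s.1 + s.2 : ℕ)) (by omega) (by omega) m
    by_cases h7 : s.2 = n
    · rw [πeq s h7, h6, h2, sub_self]
    refine π0 s _ (h6.trans ?_)
    by_cases h8 : s.2 + 1 = n
    · rw [top m hm _ _ (by omega) (by omega), h3]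
    · rw [low m hm _ _ (by omega) (by omega), map_zero]
  · intro m
    refine Sp_ext L.kb (d ∘ₗ Fr.inc Fr.u) (Fr.inc Fr.u ∘ₗ d) ?_ (mem_Sp_true _ m)
    intro v _
    change L.d (Fr.inc Fr.u (L.kb v)) = Fr.inc Fr.u (L.d (L.kb v))
    have h4 := L.kb_mem v
    have h5 := L.d_GM h4
    by_cases h6 : J ≤ L.jv v ∨ L.row v.2 + n < L.jv v
    · rw [sum0 h4 (by omega), sum0 h5 (by omega), map_zero]
    have h7 : (L.row v.2, H.deg v.1) ∈ S := (hS _).mpr (by simp only [LinCx.jv] at h6 ⊢; omega)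
    rw [sum1 h4 h7]
    by_cases h8 : H.deg v.1 = n
    · rw [πeq _ h8, sum0 h5 (by simp only [LinCx.jv]; omega), map_sub, h1, sub_self]
    have h4' : L.kb v ∈ L.GM (L.row v.2) (L.row v.2 + H.deg v.1 : ℕ) := h4
    rw [πlt _ h8, L.pj_self h4']
    rcases Nat.eq_zero_or_eq_succ_pred (L.row v.2) with h0 | h0
    · rw [L.GM_zero (Or.inl (by omega)) h5, map_zero]
    obtain ⟨q, hq⟩ : ∃ q, L.row v.2 = q + 1 := ⟨_, h0⟩
    have h9 : L.d (L.kb v) ∈ L.GM q (q + (H.deg v.1 + 1) : ℕ) := by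
      have e : L.jv v = L.row v.2 + H.deg v.1 := rfl
      convert h5 using 2 <;> omega
    rw [sum1 h9 ((hS _).mpr (by simp only [LinCx.jv] at h6 ⊢; omega))]
    by_cases h10 : H.deg v.1 + 1 = n
    · rw [πeq _ h10, L.pj_self h9, L.dd, map_zero, sub_zero]
    · rw [πlt _ h10, L.pj_self h9]
  · intro m hm
    rw [hY] at hm
    rw [← L.aug_pj]
    rcases Nat.eq_zero_or_pos n with h0 | h0
    · rw [top m hm 0 0 (by omega) (by omega),
        L.GM_zero (Or.inl (by omega)) (L.d_GM (L.pj_mem 0 0 m)), map_zero, map_zero]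
    · rw [low m hm 0 0 (by omega) (by omega), map_zero]
  · refine hχ'.trans (Eq.trans ?_ hχ)
    rw [Finset.sum_filter, Finset.sum_product_right, Finset.sum_range_succ]
    have h4 : ∀ i, Finset.range (J - i) = (Finset.range J).filter fun q => q + i < J := by
      intro i
      ext q
      simp only [Finset.mem_range, Finset.mem_filter]
      omega
    congr 1
    · refine Finset.sum_congr rfl fun i hi => ?_
      rw [h4, Finset.sum_filter, Finset.mul_sum]
      refine Finset.sum_congr rfl fun q _ => ?_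
      have h5 : LinearMap.range (π (q, i)) = L.GM q (q + i : ℕ) := by
        refine le_antisymm ?_ fun m hm => ⟨m, ?_⟩
        · rintro _ ⟨m, rfl⟩
          exact hmem (q, i) m
        · rw [πlt _ (Finset.mem_range.mp hi).ne, L.pj_self hm]
      rw [h5]
      split_ifs <;> simp
    · rw [h4, Finset.sum_filter, Finset.mul_sum]
      refine Finset.sum_congr rfl fun q _ => ?_
      have h5 : LinearMap.range (π (q, n)) = L.GM q (q + n : ℕ) ⊓ LinearMap.ker d := by
        refine le_antisymm ?_ fun m hm => ⟨m, ?_⟩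
        · rintro _ ⟨m, rfl⟩
          refine ⟨hmem (q, n) m, ?_⟩
          change L.d (π (q, n) m) = 0
          rw [πeq _ rfl, map_sub, h1, sub_self]
        · have h6 : L.d m = 0 := hm.2
          rw [πeq _ rfl, L.pj_self hm.1, h6, map_zero, sub_zero]
      rw [h5]
      split_ifs <;> simp
  · have key : ∀ (δ' : ℕ) (r : ℤ), 1 ≤ δ' → (∀ q i : ℕ, i ≤ n → n + 1 < i + δ' →
        L.Ex (q + r) (q + r + (i + δ' : ℕ)) ∨ (¬ (q = 0 ∧ i = 0) ∧ L.Ex q (q + i))) →
        ∀ a, (∀ m ∈ L.GM (Fr.rw a) (Fr.jw a), m - L.d (c m) - c (L.d m) = 0) ∨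
        (∀ y ∈ Fr.Y, y ∈ L.GM (Fr.rw a + r) (Fr.jw a + (r + δ')) →
          y - L.d (c y) - c (L.d y) = 0) := by
      intro δ' r hδ' hyp' a
      obtain ⟨⟨q, i⟩, hs, e1, e2⟩ := hrw a
      have h5 := (hS _).mp hs
      dsimp only at e1 e2 h5
      rw [e1, e2]
      by_cases h6 : n + 1 < i + δ'
      · rcases hyp' q i h5.2 h6 with h7 | h7
        · refine Or.inr fun y _ hy => L.harm_zero hc h1 h2 h3 ?_ (by omega) hy
          convert h7 using 1
          omega
        · refine Or.inl fun m hm => L.harm_zero hc h1 h2 h3 ?_ (by omega) hm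
          convert h7.2 using 1
          omega
      refine Or.inr fun y hy0 hy => ?_
      rw [hY] at hy0
      by_cases h7 : i + δ' = n + 1
      · refine L.harm_zero hc h1 h2 h3 ?_ (by omega) hy
        convert hn (q + r) using 1
        omega
      by_cases h8 : (J : ℤ) ≤ (q + i : ℕ) + (r + δ')
      · exact L.harm_zero hc h1 h2 h3 (hbig _ _ h8 (by omega)) (by omega) hy
      by_cases h9 : i + δ' = n
      · have := top y hy0 _ _ (not_le.mp h8) (show _ = (q : ℤ) + r + n by omega)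
        rw [L.pj_self hy] at this
        rw [← this]
        nth_rewrite 2 [this]
        rw [h3]
        simp
      · have := low y hy0 (q + r) _ (not_le.mp h8) (by omega)
        rw [L.pj_self hy] at this
        simp [this]
    rintro r s (rfl | ⟨rfl, rfl⟩) a
    · exact key 1 r le_rfl (fun q i h1 h2 => by omega) a
    · exact key δ p hδ hyp a

end Pool.Agent.MP_582538_al
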