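import Pool.Agent.MP_582538_al.W.Frame

set_option autoImplicit false

namespace Pool.Agent.MP_582538_al

open Module

section Aug

variable {k E B : Type} [Field k] [Ring E] [Algebra k E] {G : GAlg k E B}
variable {C M : Type} [AddCommGroup M] [Module E M] [Module k M] [IsScalarTower k E M]
variable (L : LinCx G C M)

theorem LinCx.eq_base {v : B × C} (h : L.jv v = 0) : v = (G.one, L.g0) := by
  obtain ⟨β, γ⟩ := v
  simp only [LinCx.jv] at h
  rw [G.eq_one β (by omega), L.eq_g0 γ (by omega)]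

theorem LinCx.jv_base : L.jv (G.one, L.g0) = 0 := by
  simp [LinCx.jv, L.row_g0, G.deg_one]

theorem LinCx.aug_kb {v : B × C} (h : L.jv v ≠ 0) : L.aug (L.kb v) = 0 :=
  L.aug_GM (by omega) (L.kb_mem v)

theorem LinCx.aug_base : L.aug (L.kb (G.one, L.g0)) = 1 := by
  rw [LinCx.kb, G.kb_one, L.aug_g0]

theorem LinCx.aug_HomS {h : End k M} {r s : ℤ} (hh : h ∈ L.HomS r s) (hs : r < s) (m : M) :
    L.aug (h m) = 0 := by
  refine Sp_ext L.kb (L.aug ∘ₗ h) 0 ?_ (mem_Sp_true _ m)
  intro v _
  refine L.aug_GM ?_ (hh v)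
  simp only [LinCx.jv]
  omega

theorem LinCx.aug_sgn (n : B × C → ℕ) (hn : n (G.one, L.g0) = 0) (m : M) :
    L.aug (sgn L.kb n m) = L.aug m := by
  refine Sp_ext L.kb (L.aug ∘ₗ sgn L.kb n) L.aug ?_ (mem_Sp_true _ m)
  intro v _
  rw [LinearMap.comp_apply, sgn_basis, map_smul]
  by_cases hv : L.jv v = 0
  · rw [L.eq_base hv, hn, pow_zero, one_smul]
  · rw [L.aug_kb hv, smul_zero]

theorem LinCx.Nn_mono {t t' : ℕ} (ht : t ≤ t') {h : End k M} (hh : h ∈ L.Nn t) : h ∈ L.Nn t' :=
  fun _ hm => hh _ (Sp_mono _ (fun _ hv => ht.trans hv) hm)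

end Aug

variable {k E B : Type} [Field k] [Ring E] [Algebra k E] {H : Hopf k E B}
variable {C M : Type} [AddCommGroup M] [Module E M] [Module k M] [IsScalarTower k E M]
variable {L : LinCx H.toGAlg C M} {T : Type} [Fintype T] (Fr : Frame L T)

/-- The abstract form of the rigidity theorem. -/
theorem Frame.core (c : End k M) (hc : c ∈ L.HomS 1 0) (hcY : Fr.PY c)
    (hdcd : ∀ m, L.d (c (L.d m)) = L.d m)
    (hπ : ∀ m, L.d (Fr.inc Fr.u m) = Fr.inc Fr.u (L.d m)) (haug : ∀ m ∈ Fr.Y, L.aug m = 0)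
    (hχ : ∑ a, (-1 : k) ^ (Fr.jw a + Fr.rw a) = 1) (hex0 : ∀ q : ℤ, L.Ex q q)
    (Good : ℤ → ℤ → Prop)
    (hGood : ∀ r s, Good r s → ∀ a,
      (∀ m ∈ L.GM (Fr.rw a) (Fr.jw a), m - L.d (c m) - c (L.d m) = 0) ∨
      (∀ y ∈ Fr.Y, y ∈ L.GM (Fr.rw a + r) (Fr.jw a + s) → y - L.d (c y) - c (L.d y) = 0))
    (hK1 : ∀ r, Good r (r + 1)) (p j : ℤ) (hpj : Good p j) : L.Ex p j := by
  classical
  obtain ⟨S, hS0⟩ := H.antipode
  have hS := fun β => (hS0 β).1
  have hS' := fun β => (hS0 β).2
  obtain ⟨Ψ, hinj, hN, hsurj, hact, hG, hA⟩ := Fr.exists_Psi hS hS'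
  set σ : End k M := sgn L.kb L.jv with hσ
  set τ : End k M := sgn L.kb (fun v => L.row v.2) with hτ
  set d : End k M := L.d.restrictScalars k with hd
  have hσH : σ ∈ L.HomS 0 0 := L.HomS_sgn _
  have hτH : τ ∈ L.HomS 0 0 := L.HomS_sgn _
  have hdH : d ∈ L.HomS (-1) 0 := L.HomS_d
  have hσY : Fr.PY σ := Fr.PY_σ
  have hτY : Fr.PY τ := Fr.PY_τ
  have hdY : Fr.PY d := Fr.PY_d
  have hττ : τ * τ = 1 := L.sgn_mul_sgn _
  have hdd : d * d = 0 := by ext m; exact L.dd m
  have hdcd' : d * (c * d) = d := by ext m; exact hdcd m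
  have hτd : τ * d = - (d * τ) := by simpa using L.sgn_row_comm hdH 1 rfl
  have hσd : Commute σ d := by
    have := L.sgn_jv_comm hdH 0 rfl
    rw [pow_zero, one_smul] at this
    exact this
  have hστ : Commute σ τ := by
    have := L.sgn_jv_comm hτH 0 rfl
    rw [pow_zero, one_smul] at this
    exact this
  have hτL : ∀ e : E, τ * Algebra.lsmul k k M e = Algebra.lsmul k k M e * τ := by
    intro e
    refine Sp_ext H.b (LinearMap.mulLeft k τ ∘ₗ (Algebra.lsmul k k M).toLinearMap)
      (LinearMap.mulRight k τ ∘ₗ (Algebra.lsmul k k M).toLinearMap) ?_ (mem_Sp_true _ e)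
    intro β _
    simpa using L.sgn_row_comm (L.HomS_lsmul (basis_mem_Sp H.b (i := β) rfl)) 0 rfl
  have hdL : ∀ e : E, d * Algebra.lsmul k k M e = Algebra.lsmul k k M e * d := by
    intro e
    ext m
    simp [hd]
  let dN : End k M →ₗ[k] End k M :=
    LinearMap.mulLeft k d - LinearMap.mulLeft k τ ∘ₗ LinearMap.mulRight k (τ * d)
  have dN_apply : ∀ h, dN h = d * h - τ * (h * (τ * d)) := fun h => rfl
  have dN_sign : ∀ r : ℤ, ∃ ε : k, ε * ε = 1 ∧
      (∀ s h, h ∈ L.HomS r s → dN h = d * h - ε • (h * d)) ∧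
      (∀ s h, h ∈ L.HomS (r + 1) s → dN h = d * h + ε • (h * d)) := by
    intro r
    have key : ∀ (r' s : ℤ) (a : ℕ) (h : End k M), h ∈ L.HomS r' s → r' % 2 = a % 2 →
        dN h = d * h - (-1 : k) ^ a • (h * d) := by
      intro r' s a h hh ha
      rw [dN_apply, ← mul_assoc, L.sgn_row_comm hh a ha, smul_mul_assoc, mul_assoc, ← hτ,
        ← mul_assoc τ, hττ, one_mul]
    refine ⟨(-1 : k) ^ (r % 2).toNat, ?_, ?_, ?_⟩
    · rw [← pow_add, ← two_mul, pow_mul]
      simp
    · intro s h hh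
      exact key r s _ h hh (by omega)
    · intro s h hh
      rw [key (r + 1) s ((r % 2).toNat + 1) h hh (by omega), pow_succ]
      simp
  have dN_NY : ∀ h ∈ Fr.NY, dN h ∈ Fr.NY := by
    intro h hh
    rw [dN_apply]
    exact Submodule.sub_mem _ (Fr.NY_mul_left _ hh)
      (Fr.NY_mul_left _ (Fr.NY_mul_right hh (Fr.PY_mul hτY hdY)))
  have dN_act : ∀ e h, dN (L.act S e h) = L.act S e (dN h) := by
    intro e h
    rw [L.act_apply, L.act_apply, ev2_map]
    refine ev2_congr _ fun a c _ => ?_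
    have e1 : Commute (σ ^ (H.deg a + H.deg c)) (τ * d) := (hστ.mul_right hσd).pow_left _
    have e2 : Commute (Algebra.lsmul k k M (S a)) (τ * d) :=
      Commute.mul_right (hτL _).symm (hdL _).symm
    simp only [dN_apply, mul_sub, sub_mul, ← hσ]
    congr 1
    · simp only [← mul_assoc, hdL]
    · rw [mul_assoc _ (σ ^ _), e1.eq, ← mul_assoc _ (τ * d), mul_assoc _ _ (τ * d), e2.eq]
      simp only [← mul_assoc, hτL]
  choose dX0 hdX0 using fun x => hsurj _ (dN_NY _ (hN x))
  let dX : (T → M) →ₗ[E] (T → M) :=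
    { toFun := dX0
      map_add' := fun x y => hinj (by simp only [hdX0, map_add])
      map_smul' := fun e x => hinj (by simp only [hdX0, hact, dN_act, RingHom.id_apply]) }
  have hdX : ∀ x, Ψ (dX x) = dN (Ψ x) := hdX0
  let Pj : End k M := Fr.inc Fr.u
  obtain ⟨P, hP⟩ := hsurj Pj (Fr.inc_NY _)
  have PjH : Pj ∈ L.HomS 0 0 := Fr.inc_HomS.mpr fun a => by simpa using Fr.u_mem a
  have Pj_IY : 1 - Pj ∈ Fr.IY := fun m => Fr.sub_proj m
  have hστH : σ * τ ∈ L.HomS 0 0 := L.HomS_mul hσH hτH rfl rfl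
  -- the augmentation gives a copy of the complex
  have aσ : ∀ m, L.aug (σ m) = L.aug m := L.aug_sgn _ L.jv_base
  have aτ : ∀ m, L.aug (τ m) = L.aug m := L.aug_sgn _ L.row_g0
  have ad : ∀ m, L.aug (d m) = 0 := L.aug_HomS hdH (by omega)
  have aNY : ∀ m : M, L.aug.smulRight m ∈ Fr.NY := by
    intro m y hy
    rw [LinearMap.smulRight_apply, haug y hy, zero_smul]
  have aact : ∀ (e : E) (m : M), L.act S e (L.aug.smulRight m) = L.aug.smulRight (e • m) := by
    intro e m
    refine Sp_ext H.b (H.act (Algebra.lsmul k k M) σ S (L.aug.smulRight m))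
      (LinearMap.smulRightₗ L.aug ∘ₗ (LinearMap.toSpanSingleton E M m).restrictScalars k) ?_
      (mem_Sp_true _ e)
    intro β _
    have hσn : ∀ n m', L.aug ((σ ^ n) m') = L.aug m' := by
      intro n
      induction n with
      | zero => simp
      | succ n ih => intro m'; rw [pow_succ, End.mul_apply, ih, aσ]
    rw [Hopf.act, H.ev2_left β, H.S_one hS', map_one, mul_one]
    · ext m'
      simp [hσn]
    · intro a c ha
      have h1 : H.deg a ≠ 0 := fun h0 => ha (H.eq_one a h0)
      ext m'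
      have := L.aug_HomS (L.HomS_lsmul (hS a)) (by omega) ((σ ^ (H.deg a + H.deg c)) m')
      simp only [End.mul_apply, LinearMap.smulRight_apply, this, zero_smul, map_zero,
        LinearMap.zero_apply]
  choose ι1 hι1 using fun m => hsurj _ (aNY m)
  let ι0 : M →ₗ[E] (T → M) :=
    { toFun := ι1
      map_add' := fun x y => hinj (by
        rw [map_add, hι1, hι1, hι1]
        ext m
        simp)
      map_smul' := fun e x => hinj (by rw [hι1, RingHom.id_apply, hact, hι1, aact]) }
  have hι : ∀ m, Ψ (ι0 m) = L.aug.smulRight m := hι1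
  refine retractW L (Pi.basis (fun _ : T => L.bM)) (fun i => (L.row i.2 : ℤ) - Fr.rw i.1)
    (fun i => (L.row i.2 : ℤ) - Fr.jw i.1) ?_ (∑ a, Fr.rw a) ?_ dX ?_ ?_ (Fr.IY.comap Ψ) ?_ Good
    ?_ hK1 P ?_ ?_ ?_ (Fr.tr ∘ₗ LinearMap.mulRight k (σ * τ) ∘ₗ Ψ) ?_ ?_ ?_ ?_ ?_ hex0 ι0
    ?_ ?_ ?_ ?_ p j hpj
  · intro i
    have := Fr.le i.1
    omega
  · intro i
    have := Finset.single_le_sum (f := Fr.rw) (fun _ _ => Nat.zero_le _) (Finset.mem_univ i.1)
    omega
  · intro i
    rw [hG, hdX, dN_apply]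
    have := (hG _ _ _).mp (H.basis_mem_Gr _ _ _ i)
    exact Submodule.sub_mem _ (L.HomS_mul hdH this rfl (by simp))
      (L.HomS_mul hτH (L.HomS_mul this (L.HomS_mul hτH hdH rfl rfl) rfl rfl) (by omega) (by omega))
  · intro x
    apply hinj
    rw [hdX, hdX, map_zero, dN_apply, dN_apply]
    have e1 : τ * d * (τ * d) = 0 := by
      rw [mul_assoc, ← mul_assoc d, ← neg_neg (d * τ), ← hτd, neg_mul, mul_assoc, hdd]
      simp
    simp only [mul_sub, sub_mul, mul_assoc (Ψ x), mul_assoc τ (_ * _), e1]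
    rw [← mul_assoc d d, hdd, ← mul_assoc d τ, mul_assoc d (Ψ x), ← mul_assoc τ d (Ψ x * _), hτd]
    simp
  · intro β x hx
    rw [Submodule.mem_comap, hact]
    exact Fr.act_IY _ hx
  · intro r s hrs x hx hx' hdx
    obtain ⟨ε, hε, hε1, hε2⟩ := dN_sign r
    set h := Ψ x with hh
    have hhH : h ∈ L.HomS r s := (hG _ _ _).mp hx'
    set q : End k M := 1 - d * c - c * d with hq
    have hqH : q ∈ L.HomS 0 0 := Submodule.sub_mem _ (Submodule.sub_mem _ L.HomS_one
      (L.HomS_mul hdH hc (by omega) (by omega))) (L.HomS_mul hc hdH (by omega) (by omega))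
    have hqY : Fr.PY q :=
      Fr.PY_sub (Fr.PY_sub Fr.PY_one (Fr.PY_mul hdY hcY)) (Fr.PY_mul hcY hdY)
    have hdq : d * q = 0 := by
      rw [hq, mul_sub, mul_sub, ← mul_assoc d d, hdd, hdcd']
      simp
    have hqd : q * d = 0 := by
      rw [hq, sub_mul, sub_mul, mul_assoc c d d, hdd, mul_assoc, hdcd']
      simp
    have e1 : d * h = ε • (h * d) := by
      have := hdX x
      rw [hdx, map_zero, hε1 s h hhH, eq_comm, sub_eq_zero] at this
      exact this
    have e2 : q * h * q = 0 := by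
      refine L.kb.ext fun v => ?_
      have h1 := L.HomS_apply hqH (L.kb_mem v)
      rw [add_zero, add_zero] at h1
      rw [End.mul_apply, End.mul_apply, LinearMap.zero_apply, Fr.NY_apply (hN x), map_sum]
      refine Finset.sum_eq_zero fun a _ => ?_
      by_cases hv : L.row v.2 = Fr.rw a ∧ L.jv v = Fr.jw a
      · rcases hGood r s hrs a with h2 | h2
        · have h3 : q (L.kb v) = 0 := h2 _ (by rw [← hv.1, ← hv.2]; exact L.kb_mem v)
          rw [h3, map_zero, zero_smul, map_zero]
        · have h3 : q (h (Fr.u a)) = 0 := h2 _ (hx _) (L.HomS_apply hhH (Fr.u_mem a))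
          rw [map_smul, h3, smul_zero]
      · rw [Fr.lam_GM a (by omega) h1, zero_smul, map_zero]
    have e3 : q * h * d = 0 := by
      have : h * d = ε • (d * h) := by rw [e1, smul_smul, hε, one_smul]
      rw [mul_assoc, this, mul_smul_comm, ← mul_assoc, hqd]
      simp
    have e4 : q * h * c * d = q * h := by
      have : c * d = 1 - d * c - q := by rw [hq]; abel
      rw [mul_assoc (q * h), this, mul_sub, mul_sub, ← mul_assoc (q * h) d, e3, e2]
      simp
    have hw1 : c * h ∈ L.HomS (r + 1) s := L.HomS_mul hc hhH rfl (by simp)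
    have hw2 : q * h * c ∈ L.HomS (r + 1) s :=
      L.HomS_mul (L.HomS_mul hqH hhH rfl rfl) hc (by omega) (by omega)
    obtain ⟨w, hw⟩ := hsurj (c * h + ε • (q * h * c)) (Submodule.add_mem _
      (Fr.NY_mul_left _ (hN x))
      (Submodule.smul_mem _ _ (Fr.NY_mul_right (Fr.NY_mul_left _ (hN x)) hcY)))
    refine ⟨w, ?_, ?_, hinj ?_⟩
    · rw [Submodule.mem_comap, hw]
      exact Submodule.add_mem _ (Fr.IY_mul_left hcY hx)
        (Submodule.smul_mem _ _ (Fr.IY_mul_right (Fr.IY_mul_left hqY hx) _))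
    · rw [hG, hw]
      exact Submodule.add_mem _ hw1 (Submodule.smul_mem _ _ hw2)
    · rw [hdX, hw, map_add, map_smul, hε2 s _ hw1, hε2 s _ hw2, e4, mul_assoc q h c,
        ← mul_assoc d q, hdq, zero_mul, zero_add, smul_smul, hε, one_smul, mul_assoc c h d,
        ← mul_smul_comm, ← e1, ← hh, hq]
      simp only [sub_mul, one_mul, mul_assoc]
      abel
  · rw [hG, hP]
    exact PjH
  · apply hinj
    rw [hdX, hP, map_zero, dN_apply, ← mul_assoc, L.sgn_row_comm PjH 0 rfl, pow_zero, one_smul,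
      mul_assoc, ← hτ, ← mul_assoc τ, hττ, one_mul, sub_eq_zero]
    ext m
    exact hπ m
  · intro β hβ
    rw [Submodule.mem_comap, hact, hP]
    have e1 : L.act S (H.b β) 1 = 0 := by
      have := H.act_eq (Algebra.lsmul k k M) σ S 1 (basis_mem_Sp H.b (i := β) rfl)
      rw [H.act0_one _ S hS', if_neg hβ, zero_mul] at this
      exact this
    have e2 := Fr.act_IY (S := S) (H.b β) Pj_IY
    rw [map_sub, e1, zero_sub] at e2
    simpa using Fr.IY.neg_mem e2
  · intro x hx
    exact Fr.tr_IY (Fr.IY_mul_right hx _)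
  · simp only [LinearMap.comp_apply, LinearMap.mulRight_apply, hP, Fr.tr_apply, End.mul_apply]
    rw [← hχ]
    refine Finset.sum_congr rfl fun a _ => ?_
    have h1 : τ (Fr.u a) = (-1 : k) ^ Fr.rw a • Fr.u a :=
      sgn_apply _ _ _ (Sp_mono _ (by rintro v ⟨h, _⟩; omega) (L.mem_GM.mp (Fr.u_mem a)))
    have h2 : σ (Fr.u a) = (-1 : k) ^ Fr.jw a • Fr.u a :=
      sgn_apply _ _ _ (Sp_mono _ (by rintro v ⟨_, h⟩; omega) (L.mem_GM.mp (Fr.u_mem a)))
    rw [h1, map_smul, h2, smul_smul, map_smul, map_smul, Fr.inc_u, Fr.dual_self, smul_eq_mul,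
      mul_one, ← pow_add, add_comm]
  · intro x
    simp only [LinearMap.comp_apply, LinearMap.mulRight_apply, hdX, dN_apply, map_sub]
    rw [sub_eq_zero, mul_assoc d, Fr.tr_comm hdY (Fr.NY_mul_right (hN x) (Fr.PY_mul hσY hτY)),
      mul_assoc τ, Fr.tr_comm hτY (Fr.NY_mul_right (Fr.NY_mul_right (hN x)
        (Fr.PY_mul hτY hdY)) (Fr.PY_mul hσY hτY))]
    congr 1
    simp only [mul_assoc]
    rw [hττ, mul_one, ← hσd.eq, ← mul_assoc τ σ, ← hστ.eq, mul_assoc]
  · intro β hβ x
    simp only [LinearMap.comp_apply, LinearMap.mulRight_apply, hact]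
    refine H.act_trace _ σ S hS' L.sgn_lsmul τ hτL _ _ ?_ hβ
    intro a c n
    exact Fr.tr_comm (Fr.PY_lsmul _) (Fr.NY_mul_right (hN x)
      (Fr.PY_mul (Fr.PY_mul (Fr.PY_lsmul _) (Fr.PY_pow hσY n)) hτY))
  · intro i hi
    have := (hG _ _ _).mp (H.basis_mem_Gr _ _ _ i)
    exact Fr.tr_HomS (L.HomS_mul this hστH (zero_add _) (zero_add _)) hi
  · intro r s m hm
    rw [hG, hι]
    intro v
    by_cases hv : L.jv v = 0
    · rw [L.eq_base hv, LinearMap.smulRight_apply, L.aug_base, one_smul, L.jv_base]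
      simpa [L.row_g0] using hm
    · rw [LinearMap.smulRight_apply, L.aug_kb hv, zero_smul]
      exact Submodule.zero_mem _
  · intro m
    apply hinj
    rw [hdX, hι, hι, dN_apply]
    ext m'
    have : L.aug (L.d m') = 0 := ad m'
    simp [aτ, this, hd]
  · intro m
    simp only [LinearMap.comp_apply, LinearMap.mulRight_apply, hι, Fr.tr_apply, End.mul_apply,
      LinearMap.smulRight_apply, aσ, aτ, map_smul]
    have h1 := haug _ (Fr.sub_proj m)
    rw [map_sub, sub_eq_zero, Fr.inc_apply, map_sum] at h1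
    rw [h1]
    refine Finset.sum_congr rfl fun a _ => ?_
    simp [mul_comm]
  · intro r x hx
    set D : Submodule k (T → M) := Sp (H.kb (Pi.basis (fun _ : T => L.bM)))
      (fun v => (L.row v.2.2 : ℤ) - Fr.rw v.2.1 = r ∧
        (L.row v.2.2 : ℤ) - Fr.jw v.2.1 < (L.row v.2.2 : ℤ) - Fr.rw v.2.1) with hD
    set Θ : Submodule k (End k M) := ((L.GM r r).map (ι0.restrictScalars k) ⊔
      LinearMap.range (dX.restrictScalars k) ⊔ D).map Ψ with hΘ
    have tNY : ∀ a (m : M), (Fr.lam a).smulRight m ∈ Fr.NY := by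
      intro a m y hy
      rw [LinearMap.smulRight_apply, hy a, zero_smul]
    have key : ∀ t, ∀ h ∈ Fr.NY, h ∈ L.Nn t → h ∈ L.HomS r r → h ∈ Θ := by
      intro t
      induction t with
      | zero =>
        intro h _ h2 _
        have : h = 0 := L.kb.ext fun v => h2 _ (basis_mem_Sp _ (Nat.zero_le _))
        rw [this]
        exact Submodule.zero_mem _
      | succ t ih =>
        have lA : ∀ a, Fr.jw a ≤ t → Fr.rw a < Fr.jw a →
            ∀ m ∈ L.GM (Fr.rw a + r) (Fr.jw a + r), (Fr.lam a).smulRight m ∈ Θ := by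
          intro a h1 h2 m hm
          obtain ⟨x, hx1, hx2, hx3⟩ := hA a r r m hm
          have h3 : (Fr.lam a).smulRight m ∈ L.HomS r r := by
            rw [← Fr.inc_single, Fr.inc_HomS]
            intro a'
            by_cases ha : a' = a
            · rw [ha, Pi.single_eq_same]
              exact hm
            · rw [Pi.single_eq_of_ne ha]
              exact Submodule.zero_mem _
          have h4 := ih _ (Submodule.sub_mem _ (hN x) (tNY a m)) (L.Nn_mono h1 hx3)
            (Submodule.sub_mem _ hx2 h3)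
          have h5 : Ψ x ∈ Θ := ⟨x, Submodule.mem_sup_right (Sp_mono _ (by
            rintro v ⟨h6, h7⟩
            rw [h6]
            omega) hx1), rfl⟩
          simpa using Submodule.sub_mem _ h5 h4
        have lB : ∀ a, Fr.jw a ≤ t → Fr.rw a = Fr.jw a →
            ∀ m ∈ L.GM (Fr.rw a + r) (Fr.jw a + r), (Fr.lam a).smulRight m ∈ Θ := by
          intro a h1 h2 m hm
          by_cases h0 : Fr.jw a = 0
          · refine ⟨ι0 (Fr.lam a (L.kb (H.one, L.g0)) • m), Submodule.mem_sup_left
              (Submodule.mem_sup_left ⟨_, Submodule.smul_mem _ _ (by simpa [h2, h0] using hm),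
                rfl⟩), ?_⟩
            rw [hι]
            refine L.kb.ext fun v => ?_
            by_cases hv : L.jv v = 0
            · rw [L.eq_base hv, LinearMap.smulRight_apply, L.aug_base, one_smul,
                LinearMap.smulRight_apply]
            · rw [LinearMap.smulRight_apply, L.aug_kb hv, zero_smul, LinearMap.smulRight_apply,
                Fr.lam_zero a v (by omega), zero_smul]
          obtain ⟨ε, hε, _, hε2⟩ := dN_sign r
          have hμ : ∀ {q j : ℤ} {y : M}, y ∈ L.GM q j → ¬ (q + 1 = Fr.rw a ∧ j = Fr.jw a) →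
              Fr.lam a (c y) = 0 := fun hy h =>
            Fr.lam_GM a (by omega) (L.HomS_apply hc hy)
          have mNY : ∀ m' : M, (Fr.lam a ∘ₗ c).smulRight m' ∈ Fr.NY := by
            intro m' y hy
            rw [LinearMap.smulRight_apply, LinearMap.comp_apply, hcY y hy a, zero_smul]
          have mH : (Fr.lam a ∘ₗ c).smulRight m ∈ L.HomS (r + 1) r := by
            intro v
            rw [LinearMap.smulRight_apply, LinearMap.comp_apply]
            by_cases hv : (L.row v.2 : ℤ) + 1 = Fr.rw a ∧ (L.jv v : ℤ) = Fr.jw a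
            · refine Submodule.smul_mem _ _ ?_
              convert hm using 2 <;> omega
            · rw [hμ (L.kb_mem v) hv, zero_smul]
              exact Submodule.zero_mem _
          have e1 : (Fr.lam a ∘ₗ c).smulRight m * d = (Fr.lam a).smulRight m := by
            refine L.kb.ext fun v => ?_
            have h3 := L.HomS_apply hc (L.d_GM (L.kb_mem v))
            rw [sub_add_cancel, add_zero] at h3
            rw [End.mul_apply, LinearMap.smulRight_apply, LinearMap.smulRight_apply,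
              LinearMap.comp_apply]
            congr 1
            by_cases hv : L.row v.2 = Fr.rw a ∧ L.jv v = Fr.jw a
            · congr 1
              rw [← sub_eq_zero]
              have h4 := Submodule.sub_mem _ h3 (L.kb_mem v)
              exact L.zero_of_le hex0 (by omega) h4 (by rw [map_sub, sub_eq_zero]; exact hdcd _)
                (L.aug_GM (by omega) h4)
            · rw [Fr.lam_zero a v hv]
              exact Fr.lam_GM a (by omega) h3
          obtain ⟨y, hy⟩ := hsurj _ (mNY m)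
          have e2 : Ψ (dX y) ∈ Θ :=
            ⟨_, Submodule.mem_sup_left (Submodule.mem_sup_right ⟨y, rfl⟩), rfl⟩
          have e3 : d * (Fr.lam a ∘ₗ c).smulRight m ∈ Θ := by
            have h3 : d * (Fr.lam a ∘ₗ c).smulRight m =
                ∑ b, Fr.lam a (c (Fr.u b)) • (Fr.lam b).smulRight (L.d m) := by
              ext m'
              rw [Fr.NY_apply (Fr.NY_mul_left d (mNY m)) m']
              simp [hd, smul_smul, mul_comm]
            rw [h3]
            refine Submodule.sum_mem _ fun b _ => ?_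
            by_cases hb : (Fr.rw b : ℤ) + 1 = Fr.rw a ∧ (Fr.jw b : ℤ) = Fr.jw a
            · refine Submodule.smul_mem _ _ (lA b (by omega) (by omega) _ ?_)
              convert L.d_GM hm using 2 <;> omega
            · rw [hμ (Fr.u_mem b) hb, zero_smul]
              exact Submodule.zero_mem _
          rw [hdX, hy, hε2 r _ mH, e1] at e2
          have e4 := Submodule.smul_mem _ ε (Submodule.sub_mem _ e2 e3)
          rwa [add_sub_cancel_left, smul_smul, hε, one_smul] at e4
        intro h h1 h2 h3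
        have h4 : h = ∑ a, (Fr.lam a).smulRight (h (Fr.u a)) := by
          ext m
          rw [Fr.NY_apply h1 m]
          simp
        rw [h4]
        refine Submodule.sum_mem _ fun a _ => ?_
        by_cases ha : Fr.jw a ≤ t
        · rcases (Fr.le a).eq_or_lt with h5 | h5
          · exact lB a ha h5 _ (L.HomS_apply h3 (Fr.u_mem a))
          · exact lA a ha h5 _ (L.HomS_apply h3 (Fr.u_mem a))
        · rw [h2 _ (L.Mge_of_GM (by omega) (Fr.u_mem a)), LinearMap.smulRight_zero]
          exact Submodule.zero_mem _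
    obtain ⟨x', hx1, hx2⟩ := key (∑ a, Fr.jw a + 1) (Ψ x) (hN x) (by
      rw [← Fr.inc_res (hN x)]
      refine Fr.inc_Nn.mpr fun a ha => ?_
      have := Finset.single_le_sum (f := Fr.jw) (fun _ _ => Nat.zero_le _) (Finset.mem_univ a)
      omega) ((hG _ _ _).mp hx)
    rw [hinj hx2] at hx1
    obtain ⟨x1, h1, z, hz, rfl⟩ := Submodule.mem_sup.mp hx1
    obtain ⟨_, ⟨m, hm, rfl⟩, _, ⟨y, rfl⟩, rfl⟩ := Submodule.mem_sup.mp h1
    refine ⟨m, hm, y, ?_⟩
    have : (ι0.restrictScalars k) m + (dX.restrictScalars k) y + z - ι0 m - dX y = z := by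
      simp only [LinearMap.restrictScalars_apply]
      abel
    rw [this]
    exact hz

end Pool.Agent.MP_582538_al
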