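import Pool.Agent.MP_582538_al.W.Build

set_option autoImplicit false

namespace Pool.Agent.MP_582538_al

open Module IsLocalRing

variable {R : Type} [CommRing R]

section Res

variable {F : ℕ → Type} [∀ n, AddCommGroup (F n)] [∀ n, Module R (F n)]
  {m : Ideal R} {d : ∀ n, F (n + 1) →ₗ[R] F n}
  (h0 : LinearMap.range (d 0) = m • ⊤)
  (hex : ∀ n, LinearMap.ker (d n) = LinearMap.range (d (n + 1)))

include hex in
theorem push_down {n : ℕ} (hn : ∀ s, PP m d n s) {p : ℕ} {y : F (n + 1)}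
    (hy : d n y ∈ m ^ p • (⊤ : Submodule R (F n))) :
    ∃ z ∈ m ^ (p - 1) • (⊤ : Submodule R (F (n + 1))), d n z = d n y := by
  have key : ∀ s, s ≤ p - 1 → ∃ z ∈ m ^ s • (⊤ : Submodule R (F (n + 1))), d n z = d n y := by
    intro s
    induction s with
    | zero => exact fun _ => ⟨y, by simp, rfl⟩
    | succ s ih =>
      intro hs
      obtain ⟨z, hz1, hz2⟩ := ih (by omega)
      obtain ⟨z', hz', _, ⟨w, _, rfl⟩, rfl⟩ := Submodule.mem_sup.mp
        (hn s z hz1 (by rw [hz2]; exact pow_smul_anti m (by omega) hy))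
      refine ⟨z', hz', ?_⟩
      rw [← hz2, map_add, dd_zero hex, add_zero]
  exact key _ le_rfl

include h0 hex in
theorem comap_truncW [IsNoetherianRing R] [IsLocalRing R] [∀ n, Module.Finite R (F n)]
    (hm : m ≠ ⊤) {J : ℕ} (hJ : 1 ≤ J) (hmin : ∀ n, LinearMap.range (d n) ≤ m • ⊤) (n : ℕ)
    (hbig : ∀ i p, i < n → J ≤ p + (i + 1) → PP m d i p) :
    (m ^ (J - n) • (⊤ : Submodule R (F n))).comap (d n) =
      m ^ (J - (n + 1)) • ⊤ ⊔ LinearMap.range (d (n + 1)) := by
  have ac : ∀ i (x : F (i + 1)), i < n → x ∈ m ^ (J - (i + 1)) • (⊤ : Submodule R (F (i + 1))) →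
      d i x = 0 → ∃ y ∈ m ^ (J - (i + 1 + 1)) • (⊤ : Submodule R (F (i + 1 + 1))),
        d (i + 1) y = x := by
    intro i x hi hx hdx
    let N := (m ^ (J - (i + 1 + 1)) • (⊤ : Submodule R (F (i + 1 + 1)))).map (d (i + 1))
    have key : ∀ q, ∃ y ∈ N, x - y ∈ m ^ (J - (i + 1) + q) • (⊤ : Submodule R (F (i + 1))) := by
      intro q
      induction q with
      | zero => exact ⟨0, N.zero_mem, by simpa using hx⟩
      | succ q ih =>
        obtain ⟨_, ⟨y, hy, rfl⟩, h2⟩ := ih
        obtain ⟨x', hx', _, ⟨y', hy', rfl⟩, h3⟩ := Submodule.mem_sup.mp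
          (hbig i _ hi (by omega) _ h2 (by rw [map_sub, hdx, dd_zero hex]; simp))
        refine ⟨d (i + 1) (y + y'),
          ⟨y + y', Submodule.add_mem _ hy (pow_smul_anti m (by omega) hy'), rfl⟩, ?_⟩
        rw [map_add, ← sub_sub, ← h3, add_sub_cancel_right]
        exact hx'
    have h1 : N.mkQ x ∈ (⨅ i' : ℕ, m ^ i' • ⊤ : Submodule R (F (i + 1) ⧸ N)) := by
      rw [Submodule.mem_iInf]
      intro q
      obtain ⟨y, hy, h2⟩ := key q
      have := map_mem_smul_top _ N.mkQ (pow_smul_anti m (Nat.le_add_left q _) h2)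
      rwa [map_sub, Submodule.mkQ_apply N y, (Submodule.Quotient.mk_eq_zero N).mpr hy,
        sub_zero] at this
    rw [Ideal.iInf_pow_smul_eq_bot_of_isLocalRing m hm, Submodule.mem_bot, Submodule.mkQ_apply,
      Submodule.Quotient.mk_eq_zero] at h1
    exact h1
  ext x
  rw [Submodule.mem_comap]
  constructor
  · intro hx
    have : ∃ y ∈ m ^ (J - (n + 1)) • (⊤ : Submodule R (F (n + 1))), d n y = d n x := by
      cases n with
      | zero => exact row_zero h0 hJ hx
      | succ n => exact ac n _ (by omega) hx (dd_zero hex n x)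
    obtain ⟨y, hy1, hy2⟩ := this
    refine Submodule.mem_sup.mpr ⟨y, hy1, x - y, ?_, by abel⟩
    rw [← hex, LinearMap.mem_ker, map_sub, hy2, sub_self]
  · intro hx
    obtain ⟨y, hy, _, ⟨z, rfl⟩, rfl⟩ := Submodule.mem_sup.mp hx
    rw [map_add, dd_zero hex, add_zero]
    exact pow_smul_anti m (by omega) (map_mem_pow_succ (d n) (hmin n) hy)

include h0 hex in
theorem eulerW [IsNoetherianRing R] [IsLocalRing R] [∀ n, Module.Finite R (F n)]
    (hm : m ≠ ⊤) {J : ℕ} (hJ : 1 ≤ J) (hmin : ∀ n, LinearMap.range (d n) ≤ m • ⊤) (n : ℕ)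
    (hbig : ∀ i p, i < n → J ≤ p + (i + 1) → PP m d i p) (q : ℕ → ℕ)
    (hq : ∀ i, Module.length R (F i ⧸ m ^ (J - i) • (⊤ : Submodule R (F i))) = q i) (wn : ℕ)
    (hwn : Module.length R
      (F n ⧸ (m ^ (J - n) • (⊤ : Submodule R (F n)) ⊔ LinearMap.range (d n))) = wn)
    (h1 : Module.length R (F 0 ⧸ m • (⊤ : Submodule R (F 0))) = 1) :
    ∑ i ∈ Finset.range n, (-1 : ℤ) ^ i * q i + (-1) ^ n * wn = 1 := by
  let w : ℕ → ℕ∞ := fun n =>
    Module.length R (F n ⧸ (m ^ (J - n) • (⊤ : Submodule R (F n)) ⊔ LinearMap.range (d n)))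
  have hw : ∀ i, i < n → (q i : ℕ∞) = w (i + 1) + w i := by
    intro i hi
    rw [← hq]
    exact length_quot_add (d i) _ _ _ (comap_truncW h0 hex hm hJ hmin i
      (fun i' p h => hbig i' p (by omega))) rfl
  have hw' : ∀ i, i < n → q i = (w (i + 1)).toNat + (w i).toNat := by
    intro i hi
    have h2 := hw i hi
    have h3 : w (i + 1) + w i ≠ ⊤ := h2 ▸ ENat.natCast_ne_top _
    rw [← ENat.toNat_add (by intro h; simp [h] at h3) (by intro h; simp [h] at h3), ← h2,
      ENat.toNat_natCast]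
  have hw0 : w 0 = 1 := by
    have : m ^ (J - 0) • (⊤ : Submodule R (F 0)) ⊔ LinearMap.range (d 0) = m • ⊤ := by
      rw [h0, sup_eq_right]
      intro x hx
      simpa using pow_smul_anti m (p := 1) hJ hx
    simp only [w]
    rw [this, h1]
  have key : ∀ j, j ≤ n → ∑ i ∈ Finset.range j, (-1 : ℤ) ^ i * q i =
      (w 0).toNat - (-1) ^ j * (w j).toNat := by
    intro j
    induction j with
    | zero => simp
    | succ j ih =>
      intro hj
      rw [Finset.sum_range_succ, ih (by omega), hw' j (by omega)]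
      push_cast
      ring
  have hwn' : w n = wn := hwn
  rw [key n le_rfl, hw0, hwn']
  simp

end Res

theorem length_tele {N : Type} [AddCommGroup N] [Module R N] (m : Ideal R) (I : Submodule R N)
    (c : ℕ → ℕ) (hc : ∀ p, Module.length R (↥(m ^ p • (⊤ : Submodule R N)) ⧸
      (m ^ (p + 1) • (⊤ : Submodule R N) ⊔ I).comap (m ^ p • (⊤ : Submodule R N)).subtype) = c p)
    (s : ℕ) : Module.length R (N ⧸ (m ^ s • (⊤ : Submodule R N) ⊔ I)) =
      (∑ p ∈ Finset.range s, c p : ℕ) := by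
  induction s with
  | zero =>
    have : m ^ 0 • (⊤ : Submodule R N) ⊔ I = ⊤ := by simp
    rw [this, Module.length_eq_zero]
    simp
  | succ s ih =>
    rw [length_quot_add (m ^ s • (⊤ : Submodule R N)).subtype _ (m ^ (s + 1) • ⊤ ⊔ I)
      (m ^ s • ⊤ ⊔ I) rfl (by
        rw [Submodule.range_subtype, sup_right_comm]
        congr 1
        exact sup_eq_right.mpr fun x hx => pow_smul_anti m (by omega) hx), ih, hc,
      Finset.sum_range_succ, Nat.cast_add, add_comm]

section Dual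

variable [IsLocalRing R] {F B : Type} [AddCommGroup F] [Module R F]
  (Z : Res (R := R) (ResidueField R) F B) {C : Type} [DecidableEq C]
  (Γ : GData (R := R) (ResidueField R) C)
  {E : Type} [Ring E] [Algebra (ResidueField R) E] (G : GAlg (ResidueField R) E B)
  {M : Type} [AddCommGroup M] [Module E M] [Module (ResidueField R) M]
  [IsScalarTower (ResidueField R) E M] (bM : Basis C E M)

theorem Res.dual_rank (hdeg : G.deg = Z.dg) (p i : ℕ) {U : Type} [AddCommGroup U] [Module R U]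
    [Module.Finite R U] (φ : U →ₗ[R] Z.Q p) (h1 : ∀ u, (φ u).1 ∈ Sp Z.b (fun β => Z.dg β = i))
    (h2 : ∀ x : Z.Q p, x.1 ∈ Sp Z.b (fun β => Z.dg β = i) → ∃ u, φ u = x) (W : Submodule R U)
    (h3 : ∀ u, (φ u).1 ∈ Z.Q (p + 1) → u ∈ W) (V : Submodule (ResidueField R) M)
    (hV : ∀ z, z ∈ V ↔ z ∈ G.Gr bM (fun γ => Γ.row γ) (fun γ => Γ.row γ) p (p + i) ∧
      ∀ u ∈ W, Z.pr Γ G bM p (φ u) z = 0) :
    Module.length R (U ⧸ W) = finrank (ResidueField R) V := by
  classical
  obtain ⟨c, π0, hπ1, hπ2⟩ := exists_coord (R := R) (U ⧸ W)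
  have hm : RingHom.ker (algebraMap R (ResidueField R)) = maximalIdeal R := ker_residue
  let π : U →ₗ[R] (Fin c → ResidueField R) := π0 ∘ₗ W.mkQ
  have hπs : Function.Surjective π := hπ1.comp W.mkQ_surjective
  have hπk : LinearMap.ker π = W := by
    ext u
    rw [LinearMap.mem_ker, LinearMap.comp_apply, ← LinearMap.mem_ker, hπ2]
    constructor
    · intro h
      have : maximalIdeal R • (⊤ : Submodule R (U ⧸ W)) ≤ ⊥ := by
        refine Submodule.smul_le.mpr fun r hr x _ => ?_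
        obtain ⟨x, rfl⟩ := W.mkQ_surjective x
        rw [← map_smul, Submodule.mem_bot, Submodule.mkQ_apply, Submodule.Quotient.mk_eq_zero]
        refine h3 _ ?_
        rw [map_smul]
        exact smul_mem_pow_succ (hm ▸ hr) (φ x).2
      exact (Submodule.Quotient.mk_eq_zero W).mp (this h)
    · intro h
      rw [Submodule.mkQ_apply, (Submodule.Quotient.mk_eq_zero W).mpr h]
      exact Submodule.zero_mem _
  choose e he using fun t : Fin c => hπs (Pi.single t 1)
  let ψ : V →ₗ[ResidueField R] (Fin c → ResidueField R) :=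
    LinearMap.pi fun t => Z.pr Γ G bM p (φ (e t)) ∘ₗ V.subtype
  have hdec : ∀ u, ∃ r : Fin c → R, u - ∑ t, r t • e t ∈ W := by
    intro u
    choose r hr using fun t => residue_surjective (π u t)
    refine ⟨r, ?_⟩
    rw [← hπk, LinearMap.mem_ker, map_sub, map_sum, sub_eq_zero]
    ext t
    simp only [map_smul, he, Finset.sum_apply, Pi.smul_apply, Pi.single_apply]
    rw [Finset.sum_eq_single t]
    · rw [if_pos rfl, ← hr, Algebra.smul_def, mul_one]
      rfl
    · intro b _ hb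
      rw [if_neg hb.symm, smul_zero]
    · simp
  have hinj : Function.Injective ψ := by
    rw [injective_iff_map_eq_zero]
    intro z hz
    obtain ⟨hz1, hz2⟩ := (hV z).mp z.2
    apply Subtype.ext
    refine Z.nondeg Γ G bM hdeg p i hz1 fun x hx => ?_
    obtain ⟨u, rfl⟩ := h2 x hx
    obtain ⟨r, hr⟩ := hdec u
    have h4 := hz2 _ hr
    rw [map_sub, map_sub, LinearMap.sub_apply, sub_eq_zero] at h4
    rw [h4, map_sum, map_sum, LinearMap.sum_apply]
    refine Finset.sum_eq_zero fun t _ => ?_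
    have h5 : Z.pr Γ G bM p (φ (e t)) z = 0 := congrFun hz t
    rw [map_smul, map_smul, LinearMap.smul_apply, h5, smul_zero]
  have hsurj : Function.Surjective ψ := by
    intro a
    let l : U →ₗ[R] ResidueField R :=
      (Fintype.linearCombination (ResidueField R) a).restrictScalars R ∘ₗ π
    have hl : ∀ u ∈ W, l u = 0 := by
      intro u hu
      rw [← hπk, LinearMap.mem_ker] at hu
      simp only [l, LinearMap.comp_apply, hu, map_zero]
    obtain ⟨z, hz1, hz2⟩ := Z.rep Γ G bM hdeg p i φ l (fun u hu => hl u (h3 u hu))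
    refine ⟨⟨z, (hV z).mpr ⟨hz1, fun u hu => (hz2 u (h1 u)).trans (hl u hu)⟩⟩, ?_⟩
    ext t
    refine (hz2 (e t) (h1 _)).trans ?_
    simp [l, he]
  rw [(LinearEquiv.ofBijective ψ ⟨hinj, hsurj⟩).finrank_eq, ← hπk,
    (LinearMap.quotKerEquivOfSurjective _ hπs).length_eq]
  simp [length_residue]

end Dual

end Pool.Agent.MP_582538_al
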