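import Pool.Agent.MP_582538_al.W.Retract

set_option autoImplicit false

namespace Pool.Agent.MP_582538_al

open Module

section Basic

variable {k E B : Type} [Field k] [Ring E] [Algebra k E] {G : GAlg k E B}
variable {C M : Type} [AddCommGroup M] [Module E M] [Module k M] [IsScalarTower k E M]

/-- A finite homogeneous biorthogonal system whose common kernel is a subcomplex. -/
structure Frame (L : LinCx G C M) (T : Type) where
  u : T → M
  lam : T → M →ₗ[k] k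
  rw : T → ℕ
  jw : T → ℕ
  le : ∀ a, rw a ≤ jw a
  u_mem : ∀ a, u a ∈ L.GM (rw a) (jw a)
  lam_zero : ∀ a (v : B × C), ¬ (L.row v.2 = rw a ∧ L.jv v = jw a) → lam a (L.kb v) = 0
  dual_self : ∀ a, lam a (u a) = 1
  dual_ne : ∀ a b, a ≠ b → lam a (u b) = 0
  smul_mem : ∀ (e : E) (m : M), (∀ a, lam a m = 0) → ∀ a, lam a (e • m) = 0
  d_mem : ∀ m : M, (∀ a, lam a m = 0) → ∀ a, lam a (L.d m) = 0

variable {L : LinCx G C M} {T : Type} (Fr : Frame L T)

/-- The common kernel. -/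
def Frame.Y : Submodule k M where
  carrier := {m | ∀ a, Fr.lam a m = 0}
  add_mem' h1 h2 a := by rw [map_add, h1 a, h2 a, add_zero]
  zero_mem' a := map_zero _
  smul_mem' c _ h a := by rw [map_smul, h a, smul_zero]

/-- Endomorphisms killing the common kernel. -/
def Frame.NY : Submodule k (End k M) where
  carrier := {h | ∀ m ∈ Fr.Y, h m = 0}
  add_mem' h1 h2 m hm := by simp [h1 m hm, h2 m hm]
  zero_mem' _ _ := rfl
  smul_mem' c _ h m hm := by simp [h m hm]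

/-- Endomorphisms with values in the common kernel. -/
def Frame.IY : Submodule k (End k M) where
  carrier := {h | ∀ m, h m ∈ Fr.Y}
  add_mem' h1 h2 m := Submodule.add_mem _ (h1 m) (h2 m)
  zero_mem' _ := Submodule.zero_mem _
  smul_mem' c _ h m := Submodule.smul_mem _ c (h m)

/-- Endomorphisms preserving the common kernel. -/
def Frame.PY (a : End k M) : Prop := ∀ m ∈ Fr.Y, a m ∈ Fr.Y

theorem Frame.PY_mul {a b : End k M} (ha : Fr.PY a) (hb : Fr.PY b) : Fr.PY (a * b) :=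
  fun m hm => ha _ (hb m hm)

theorem Frame.PY_one : Fr.PY 1 := fun _ hm => hm

theorem Frame.PY_pow {a : End k M} (ha : Fr.PY a) (n : ℕ) : Fr.PY (a ^ n) := by
  induction n with
  | zero => simpa using Fr.PY_one
  | succ n ih => rw [pow_succ]; exact Fr.PY_mul ih ha

theorem Frame.PY_sub {a b : End k M} (ha : Fr.PY a) (hb : Fr.PY b) : Fr.PY (a - b) :=
  fun m hm => Submodule.sub_mem _ (ha m hm) (hb m hm)

theorem Frame.PY_lsmul (e : E) : Fr.PY (Algebra.lsmul k k M e) :=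
  fun m hm => Fr.smul_mem e m hm

theorem Frame.PY_d : Fr.PY (L.d.restrictScalars k) := fun m hm => Fr.d_mem m hm

theorem Frame.lam_GM (a : T) {q j : ℤ} (h : ¬ (q = Fr.rw a ∧ j = Fr.jw a)) {m : M}
    (hm : m ∈ L.GM q j) : Fr.lam a m = 0 := by
  refine Sp_ext L.kb (Fr.lam a) 0 ?_ (L.mem_GM.mp hm)
  rintro v ⟨h1, h2⟩
  exact Fr.lam_zero a v (by omega)

theorem Frame.lam_sgn (a : T) (n : B × C → ℕ) (c : ℕ)
    (h : ∀ v, L.row v.2 = Fr.rw a → L.jv v = Fr.jw a → n v = c) (m : M) :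
    Fr.lam a (sgn L.kb n m) = (-1 : k) ^ c * Fr.lam a m := by
  refine Sp_ext L.kb (Fr.lam a ∘ₗ sgn L.kb n) ((-1 : k) ^ c • Fr.lam a) ?_ (mem_Sp_true _ m)
  intro v _
  rw [LinearMap.comp_apply, sgn_basis, map_smul, LinearMap.smul_apply]
  by_cases hv : L.row v.2 = Fr.rw a ∧ L.jv v = Fr.jw a
  · rw [h v hv.1 hv.2]
  · rw [Fr.lam_zero a v hv, smul_zero, smul_zero]

theorem Frame.PY_σ : Fr.PY (sgn L.kb L.jv) := by
  intro m hm a
  rw [Fr.lam_sgn a _ (Fr.jw a) (fun _ _ h => h), hm a, mul_zero]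

theorem Frame.PY_τ : Fr.PY (sgn L.kb (fun v => L.row v.2)) := by
  intro m hm a
  rw [Fr.lam_sgn a _ (Fr.rw a) (fun _ h _ => h), hm a, mul_zero]

theorem Frame.NY_mul_left (a : End k M) {h : End k M} (hh : h ∈ Fr.NY) : a * h ∈ Fr.NY := by
  intro m hm
  simp [hh m hm]

theorem Frame.NY_mul_right {c h : End k M} (hh : h ∈ Fr.NY) (hc : Fr.PY c) : h * c ∈ Fr.NY :=
  fun m hm => hh _ (hc m hm)

theorem Frame.IY_mul_right {h : End k M} (hh : h ∈ Fr.IY) (a : End k M) : h * a ∈ Fr.IY :=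
  fun _ => hh _

theorem Frame.IY_mul_left {c h : End k M} (hc : Fr.PY c) (hh : h ∈ Fr.IY) : c * h ∈ Fr.IY :=
  fun m => hc _ (hh m)

variable [Fintype T]

/-- The endomorphism with prescribed values on the frame. -/
noncomputable def Frame.inc : (T → M) →ₗ[k] End k M where
  toFun x := ∑ a, (Fr.lam a).smulRight (x a)
  map_add' x y := by
    ext m
    simp [Finset.sum_add_distrib]
  map_smul' c x := by
    ext m
    simp [Finset.smul_sum, smul_comm c]

theorem Frame.inc_apply (x : T → M) (m : M) : Fr.inc x m = ∑ a, Fr.lam a m • x a := by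
  simp [Frame.inc]

theorem Frame.inc_u (x : T → M) (a : T) : Fr.inc x (Fr.u a) = x a := by
  rw [Fr.inc_apply, Finset.sum_eq_single a, Fr.dual_self, one_smul]
  · intro b _ hb
    rw [Fr.dual_ne b a hb, zero_smul]
  · simp

theorem Frame.inc_single [DecidableEq T] (a : T) (x : M) :
    Fr.inc (Pi.single a x) = (Fr.lam a).smulRight x := by
  ext m
  rw [Fr.inc_apply, Finset.sum_eq_single a]
  · simp
  · intro b _ hb
    simp [hb]
  · simp

attribute [irreducible] Frame.inc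

theorem Frame.inc_NY (x : T → M) : Fr.inc x ∈ Fr.NY := by
  intro m hm
  rw [Fr.inc_apply]
  exact Finset.sum_eq_zero fun a _ => by rw [hm a, zero_smul]

theorem Frame.sub_proj (m : M) : m - Fr.inc Fr.u m ∈ Fr.Y := by
  intro a
  rw [map_sub, Fr.inc_apply, map_sum, Finset.sum_eq_single a]
  · simp [Fr.dual_self]
  · intro b _ hb
    simp [Fr.dual_ne a b hb.symm]
  · simp

theorem Frame.NY_apply {h : End k M} (hh : h ∈ Fr.NY) (m : M) :
    h m = ∑ a, Fr.lam a m • h (Fr.u a) := by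
  have h1 := hh _ (Fr.sub_proj m)
  rw [map_sub, sub_eq_zero, Fr.inc_apply] at h1
  simpa using h1

theorem Frame.inc_res {h : End k M} (hh : h ∈ Fr.NY) : Fr.inc (fun a => h (Fr.u a)) = h := by
  ext m
  rw [Fr.inc_apply, Fr.NY_apply hh m]

theorem Frame.inc_HomS {r s : ℤ} {x : T → M} :
    Fr.inc x ∈ L.HomS r s ↔ ∀ a, x a ∈ L.GM (Fr.rw a + r) (Fr.jw a + s) := by
  constructor
  · intro h a
    rw [← Fr.inc_u x a]
    exact L.HomS_apply h (Fr.u_mem a)
  · intro h v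
    rw [Fr.inc_apply]
    refine Submodule.sum_mem _ fun a _ => ?_
    by_cases hv : L.row v.2 = Fr.rw a ∧ L.jv v = Fr.jw a
    · rw [hv.1, hv.2]
      exact Submodule.smul_mem _ _ (h a)
    · rw [Fr.lam_zero a v hv, zero_smul]
      exact Submodule.zero_mem _

theorem Frame.inc_Nn {t : ℕ} {x : T → M} :
    Fr.inc x ∈ L.Nn t ↔ ∀ a, t ≤ Fr.jw a → x a = 0 := by
  constructor
  · intro h a ha
    rw [← Fr.inc_u x a]
    exact h _ (L.Mge_of_GM (by omega) (Fr.u_mem a))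
  · intro h m hm
    refine Sp_ext L.kb (Fr.inc x) 0 ?_ hm
    intro v hv
    rw [Fr.inc_apply]
    refine Finset.sum_eq_zero fun a _ => ?_
    by_cases ha : t ≤ Fr.jw a
    · rw [h a ha, smul_zero]
    · rw [Fr.lam_zero a v (by omega), zero_smul]

/-- The trace on the quotient by the common kernel. -/
noncomputable def Frame.tr : End k M →ₗ[k] k :=
  ∑ a, Fr.lam a ∘ₗ LinearMap.applyₗ (Fr.u a)

theorem Frame.tr_apply (h : End k M) : Fr.tr h = ∑ a, Fr.lam a (h (Fr.u a)) := by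
  simp [Frame.tr]

attribute [irreducible] Frame.tr

theorem Frame.tr_comm {a h : End k M} (ha : Fr.PY a) (hh : h ∈ Fr.NY) :
    Fr.tr (a * h) = Fr.tr (h * a) := by
  have e1 : ∀ v m, Fr.lam v (a m) = ∑ w, Fr.lam w m * Fr.lam v (a (Fr.u w)) := by
    intro v m
    have h1 := ha _ (Fr.sub_proj m) v
    rw [map_sub, map_sub, sub_eq_zero, Fr.inc_apply] at h1
    simpa using h1
  simp only [Fr.tr_apply, End.mul_apply]
  rw [Finset.sum_congr rfl (fun v _ => e1 v _), Finset.sum_comm]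
  refine Finset.sum_congr rfl fun w _ => ?_
  rw [Fr.NY_apply hh (a _)]
  simp [mul_comm]

theorem Frame.tr_IY {h : End k M} (hh : h ∈ Fr.IY) : Fr.tr h = 0 := by
  rw [Fr.tr_apply]
  exact Finset.sum_eq_zero fun a _ => hh _ a

theorem Frame.tr_HomS {h : End k M} {r s : ℤ} (hh : h ∈ L.HomS r s) (h0 : ¬ (r = 0 ∧ s = 0)) :
    Fr.tr h = 0 := by
  rw [Fr.tr_apply]
  exact Finset.sum_eq_zero fun a _ => Fr.lam_GM a (by omega) (L.HomS_apply hh (Fr.u_mem a))

end Basic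

variable {k E B : Type} [Field k] [Ring E] [Algebra k E] {H : Hopf k E B}
variable {C M : Type} [AddCommGroup M] [Module E M] [Module k M] [IsScalarTower k E M]
variable {L : LinCx H.toGAlg C M} {T : Type} (Fr : Frame L T) {S : B → E}

theorem Frame.act_NY (e : E) {h : End k M} (hh : h ∈ Fr.NY) : L.act S e h ∈ Fr.NY := by
  rw [L.act_apply]
  refine ev2_mem _ _ fun a c _ => ?_
  exact Fr.NY_mul_right (Fr.NY_mul_right (Fr.NY_mul_left _ hh) (Fr.PY_lsmul _))
    (Fr.PY_pow Fr.PY_σ _)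

theorem Frame.act_IY (e : E) {h : End k M} (hh : h ∈ Fr.IY) : L.act S e h ∈ Fr.IY := by
  rw [L.act_apply]
  refine ev2_mem _ _ fun a c _ => ?_
  exact Fr.IY_mul_right (Fr.IY_mul_right (Fr.IY_mul_left (Fr.PY_lsmul _) hh) _) _

open Classical in
theorem Hopf.S_one
    (hS' : ∀ β, ev2 H.Δ (fun a c => S c * H.b a) (H.b β) = if β = H.one then 1 else 0) :
    S H.one = 1 := by
  have h1 := hS' H.one
  rw [H.ev2_split, if_pos rfl, H.b_one, mul_one, ← H.b_one] at h1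
  rw [← H.b_one, ← h1, left_eq_add]
  refine (ev2_congr _ ?_).trans (ev2_zero H.Δ _)
  intro a c hac
  split_ifs with ha
  · rfl
  · have := H.deg_lt hac ha
    rw [H.deg_one] at this
    omega

open Classical in
/-- The twisted module of endomorphisms is free. -/
theorem Frame.exists_Psi [Fintype T]
    (hS : ∀ β, S β ∈ Sp H.b (fun β' => H.deg β' = H.deg β))
    (hS' : ∀ β, ev2 H.Δ (fun a c => S c * H.b a) (H.b β) = if β = H.one then 1 else 0) :
    ∃ Ψ : (T → M) →ₗ[k] End k M, Function.Injective Ψ ∧ (∀ x, Ψ x ∈ Fr.NY) ∧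
      (∀ h ∈ Fr.NY, ∃ x, Ψ x = h) ∧ (∀ e x, Ψ (e • x) = L.act S e (Ψ x)) ∧
      (∀ r s x, x ∈ H.Gr (Pi.basis (fun _ : T => L.bM))
        (fun i => (L.row i.2 : ℤ) - Fr.rw i.1) (fun i => (L.row i.2 : ℤ) - Fr.jw i.1) r s ↔
          Ψ x ∈ L.HomS r s) ∧
      ∀ (a : T) (r s : ℤ), ∀ m ∈ L.GM (Fr.rw a + r) (Fr.jw a + s),
        ∃ x ∈ Sp (H.kb (Pi.basis (fun _ : T => L.bM)))
          (fun v => v.2.1 = a ∧ (L.row v.2.2 : ℤ) - Fr.rw a = r),
          Ψ x ∈ L.HomS r s ∧ Ψ x - (Fr.lam a).smulRight m ∈ L.Nn (Fr.jw a) := by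
  set bX := Pi.basis (fun _ : T => L.bM) with hbX
  have hrepr : ∀ (x : T → M) β (i : Σ _ : T, C),
      (H.kb bX).repr x (β, i) = L.kb.repr (x i.1) (β, i.2) := by
    intro x β i
    simp [GAlg.kb, hbX]
  have memX : ∀ r s x, x ∈ H.Gr bX (fun i => (L.row i.2 : ℤ) - Fr.rw i.1)
      (fun i => (L.row i.2 : ℤ) - Fr.jw i.1) r s ↔ Fr.inc x ∈ L.HomS r s := by
    intro r s x
    rw [Fr.inc_HomS]
    constructor
    · intro hx a
      rw [L.mem_GM, mem_Sp]
      rintro ⟨β, γ⟩ h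
      have := (mem_Sp _ _ _).mp hx (β, ⟨a, γ⟩) (by rw [hrepr]; exact h)
      simp only [LinCx.jv] at this ⊢
      omega
    · intro hx
      refine (mem_Sp _ _ _).mpr ?_
      rintro ⟨β, ⟨a, γ⟩⟩ h
      rw [hrepr] at h
      have h1 := hx a
      rw [L.mem_GM, mem_Sp] at h1
      have := h1 _ h
      simp only [LinCx.jv] at this ⊢
      omega
  have inc_smul : ∀ (e : E) (x : T → M), Fr.inc (e • x) = Algebra.lsmul k k M e * Fr.inc x := by
    intro e x
    ext m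
    rw [End.mul_apply, Fr.inc_apply, Fr.inc_apply, map_sum]
    refine Finset.sum_congr rfl fun a _ => ?_
    rw [map_smul]
    rfl
  let Φ : (T → M) →ₗ[k] (T → M) :=
    (H.kb bX).constr ℕ (fun w a => L.act S (H.b w.1) (Fr.inc (bX w.2)) (Fr.u a))
  have Φ_basis : ∀ β i, Fr.inc (Φ (H.b β • bX i)) = L.act S (H.b β) (Fr.inc (bX i)) := by
    intro β i
    rw [← H.kb_apply, Basis.constr_basis, Fr.inc_res (Fr.act_NY _ (Fr.inc_NY _))]
  have lin : ∀ (x : T → M) (h : End k M),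
      (∀ β, Fr.inc (Φ (H.b β • x)) = L.act S (H.b β) h) →
      ∀ e : E, Fr.inc (Φ (e • x)) = L.act S e h := by
    intro x h hx e
    refine Sp_ext H.b (Fr.inc ∘ₗ Φ ∘ₗ (LinearMap.toSpanSingleton E _ x).restrictScalars k)
      (H.act (Algebra.lsmul k k M) (sgn L.kb L.jv) S h) ?_ (mem_Sp_true _ e)
    intro β _
    exact hx β
  have Φ_act : ∀ (e : E) x, Fr.inc (Φ (e • x)) = L.act S e (Fr.inc (Φ x)) := by
    intro e x
    refine lin x _ (fun β => ?_) e
    refine Sp_ext (H.kb bX) (Fr.inc ∘ₗ Φ ∘ₗ Algebra.lsmul k k _ (H.b β))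
      (L.act S (H.b β) ∘ₗ Fr.inc ∘ₗ Φ) ?_ (mem_Sp_true _ x)
    rintro ⟨β', i⟩ _
    simp only [LinearMap.comp_apply, H.kb_apply, Algebra.lsmul_coe]
    rw [← mul_smul, lin _ _ (fun β => Φ_basis β i), Φ_basis]
    exact H.act_mul _ _ S hS' (L.sgn_mul_sgn _) L.sgn_lsmul _ _ _
  have hS1 : S H.one = 1 := H.S_one hS'
  have hF : ∀ t, ∀ x ∈ (L.Nn (t + 1)).comap Fr.inc,
      Φ (sgn (H.kb bX) (fun w => H.deg w.1 * Fr.jw w.2.1) x) - x ∈ (L.Nn t).comap Fr.inc := by
    intro t x hx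
    have hx' : x ∈ Sp (H.kb bX) (fun w => Fr.jw w.2.1 ≤ t) := by
      refine (mem_Sp _ _ _).mpr ?_
      rintro ⟨β, ⟨a, γ⟩⟩ h
      rw [hrepr] at h
      by_contra h1
      apply h
      simp only at h1 ⊢
      rw [Fr.inc_Nn.mp hx a (by omega)]
      simp
    refine Sp_map (H.kb bX) (Φ ∘ₗ sgn (H.kb bX) (fun w => H.deg w.1 * Fr.jw w.2.1) -
      LinearMap.id) _ ?_ hx'
    rintro ⟨β, ⟨a, γ⟩⟩ hv
    simp only at hv
    have hb : bX ⟨a, γ⟩ = Pi.single a (L.bM γ) := by rw [hbX, Pi.basis_apply]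
    have hN : Fr.inc (bX ⟨a, γ⟩) ∈ L.Nn (t + 1) := by
      rw [Fr.inc_Nn, hb]
      intro a' ha'
      exact Pi.single_eq_of_ne (by rintro rfl; omega) _
    have hσ1 : Fr.inc (bX ⟨a, γ⟩) * sgn L.kb L.jv =
        (-1 : k) ^ Fr.jw a • Fr.inc (bX ⟨a, γ⟩) := by
      ext m
      rw [hb, Fr.inc_single, End.mul_apply, LinearMap.smul_apply, LinearMap.smulRight_apply,
        LinearMap.smulRight_apply, Fr.lam_sgn a _ (Fr.jw a) (fun _ _ h => h), mul_smul]
    have hσ : ∀ n : ℕ, Fr.inc (bX ⟨a, γ⟩) * (sgn L.kb L.jv : End k M) ^ n =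
        (-1 : k) ^ (n * Fr.jw a) • Fr.inc (bX ⟨a, γ⟩) := by
      intro n
      induction n with
      | zero => simp
      | succ n ih =>
        rw [pow_succ, ← mul_assoc, ih, smul_mul_assoc, hσ1, smul_smul, ← pow_add, add_mul,
          one_mul]
    simp only [Submodule.mem_comap, LinearMap.sub_apply, LinearMap.comp_apply, sgn_basis,
      LinearMap.id_apply, map_smul, map_sub]
    rw [H.kb_apply, Φ_basis, inc_smul, L.act_apply, H.ev2_split, hS1, map_one, mul_one,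
      H.deg_one, zero_add, mul_assoc, hσ, smul_add, mul_smul_comm, smul_smul, ← pow_add,
      ← two_mul, pow_mul]
    simp only [even_two, Even.neg_pow, one_pow, one_smul, add_sub_cancel_left]
    refine Submodule.smul_mem _ _ (ev2_mem _ _ fun a c _ => ?_)
    split_ifs with ha
    · exact Submodule.zero_mem _
    · have : H.deg a ≠ 0 := fun h0 => ha (H.eq_one a h0)
      refine L.Nn_mul_right (t := t) ?_ (L.HomS_pow (L.HomS_sgn _) _) (by omega)
      exact L.Nn_mul_right (L.Nn_mul_left _ hN) (L.HomS_lsmul (hS a)) (by push_cast; omega)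
  obtain ⟨hinj, hsurj⟩ := triangular Φ (sgn (H.kb bX) (fun w => H.deg w.1 * Fr.jw w.2.1))
    (sgn_sgn _ _) (fun t => (L.Nn t).comap Fr.inc) (∑ a, Fr.jw a + 1) (by
      intro x hx
      ext a
      exact Fr.inc_Nn.mp hx a (Nat.zero_le _)) (by
      intro x
      refine Fr.inc_Nn.mpr fun a ha => ?_
      have := Finset.single_le_sum (f := Fr.jw) (fun _ _ => Nat.zero_le _) (Finset.mem_univ a)
      omega) hF
  have hΦG : ∀ r s x, x ∈ H.Gr bX (fun i => (L.row i.2 : ℤ) - Fr.rw i.1)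
      (fun i => (L.row i.2 : ℤ) - Fr.jw i.1) r s → Φ x ∈ H.Gr bX
        (fun i => (L.row i.2 : ℤ) - Fr.rw i.1) (fun i => (L.row i.2 : ℤ) - Fr.jw i.1) r s := by
    intro r s x hx
    refine Sp_map (H.kb bX) Φ _ ?_ hx
    rintro ⟨β, i⟩ ⟨h1, h2⟩
    rw [memX, H.kb_apply, Φ_basis, ← h1, ← h2]
    exact L.act_HomS hS β ((memX _ _ _).mp (H.basis_mem_Gr bX _ _ i))
  refine ⟨Fr.inc ∘ₗ Φ, ?_, fun x => Fr.inc_NY _, ?_, Φ_act, ?_, ?_⟩
  · intro x y hxy
    apply hinj
    ext a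
    rw [← Fr.inc_u (Φ x) a, ← Fr.inc_u (Φ y) a]
    exact LinearMap.congr_fun hxy _
  · intro h hh
    obtain ⟨x, _, hx⟩ := hsurj ⊤ (by simp) (by simp) (fun a => h (Fr.u a)) trivial
    exact ⟨x, by rw [LinearMap.comp_apply, hx, Fr.inc_res hh]⟩
  · intro r s x
    rw [LinearMap.comp_apply, ← memX]
    refine ⟨hΦG r s x, fun hx => ?_⟩
    obtain ⟨x', hx1, hx2⟩ := hsurj _ (hΦG r s) (fun x hx => sgn_mem _ _ hx) _ hx
    rw [← hinj hx2]
    exact hx1
  · intro a r s m hm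
    have h1 : (Pi.single a m : T → M) ∈ H.Gr bX (fun i => (L.row i.2 : ℤ) - Fr.rw i.1)
        (fun i => (L.row i.2 : ℤ) - Fr.jw i.1) r s := by
      rw [memX, Fr.inc_HomS]
      intro a'
      by_cases ha : a' = a
      · rw [ha, Pi.single_eq_same]
        exact hm
      · rw [Pi.single_eq_of_ne ha]
        exact Submodule.zero_mem _
    have h2 : (Pi.single a m : T → M) ∈ Sp (H.kb bX)
        (fun v => v.2.1 = a ∧ (L.row v.2.2 : ℤ) - Fr.rw a = r) := by
      refine (mem_Sp _ _ _).mpr ?_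
      rintro ⟨β, ⟨a', γ⟩⟩ h
      have h3 := ((mem_Sp _ _ _).mp h1 _ h).1
      rw [hrepr] at h
      have ha : a' = a := by
        by_contra ha
        apply h
        simp [Pi.single_eq_of_ne ha]
      subst ha
      exact ⟨rfl, h3⟩
    refine ⟨_, sgn_mem _ (fun w => H.deg w.1 * Fr.jw w.2.1) h2, ?_, ?_⟩
    · rw [LinearMap.comp_apply, ← memX]
      exact hΦG _ _ _ (sgn_mem _ _ h1)
    · have := hF (Fr.jw a) (Pi.single a m) (Fr.inc_Nn.mpr fun a' ha' =>
        Pi.single_eq_of_ne (by rintro rfl; omega) _)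
      rwa [Submodule.mem_comap, map_sub, Fr.inc_single] at this

end Pool.Agent.MP_582538_al
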