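import Pool.Agent.MP_582538_al.W.Euler

set_option autoImplicit false

namespace Pool.Agent.MP_582538_al

open Module IsLocalRing

variable {R : Type} [CommRing R]

theorem LinCx.GM_finite {k E B : Type} [Field k] [Ring E] [Algebra k E] {G : GAlg k E B}
    {C M : Type} [AddCommGroup M] [Module E M] [Module k M] [IsScalarTower k E M]
    (L : LinCx G C M) (h1 : ∀ n, {β | G.deg β = n}.Finite) (h2 : ∀ p, {γ | L.row γ = p}.Finite)
    (q j : ℤ) : FiniteDimensional k (L.GM q j) := by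
  refine FiniteDimensional.span_of_finite k (Set.Finite.image _ ?_)
  refine ((h1 (j - q).toNat).prod (h2 q.toNat)).subset ?_
  rintro ⟨β, γ⟩ ⟨h3, h4⟩
  dsimp only at h3 h4
  refine ⟨?_, ?_⟩
  · change G.deg β = _
    omega
  · change L.row γ = _
    omega

theorem straddle_PP [IsLocalRing R] [IsNoetherianRing R] {b : ℕ → ℕ}
    (d : ∀ n : ℕ, (Fin (b (n + 1)) → R) →ₗ[R] (Fin (b n) → R))
    (ε : (Fin (b 0) → R) →ₗ[R] ResidueField R) (hε : Function.Surjective ε)
    (hker : LinearMap.ker ε = LinearMap.range (d 0))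
    (hex : ∀ n, LinearMap.ker (d n) = LinearMap.range (d (n + 1)))
    (hmin : ∀ n, LinearMap.range (d n) ≤ maximalIdeal R • ⊤) (n : ℕ)
    (hn : ∀ p, PP (F := fun n => Fin (b n) → R) (maximalIdeal R) d n p) (e p : ℕ)
    (hyp : ∀ q i, i ≤ n → n < i + e →
      PP (F := fun n => Fin (b n) → R) (maximalIdeal R) d (i + e) (q + p) ∨ (i = 0 ∧ q ≠ 0) ∨
      ∃ i', i = i' + 1 ∧ PP (F := fun n => Fin (b n) → R) (maximalIdeal R) d i' q) :
    PP (F := fun n => Fin (b n) → R) (maximalIdeal R) d e p := by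
  classical
  have hm : RingHom.ker (algebraMap R (ResidueField R)) = maximalIdeal R := ker_residue
  have h0 : LinearMap.range (d 0) = maximalIdeal R • ⊤ := by
    refine le_antisymm (hmin 0) fun x hx => ?_
    rw [← hker]
    exact kill_smul_top (k := ResidueField R) ε (hm ▸ hx)
  have hl : Module.length R ((Fin (b 0) → R) ⧸ maximalIdeal R •
      (⊤ : Submodule R (Fin (b 0) → R))) = 1 := by
    rw [← h0, ← hker, (LinearMap.quotKerEquivOfSurjective ε hε).length_eq, length_residue]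
  have hb : b 0 = 1 := by
    have h1 : Module.length R (R ⧸ maximalIdeal R) = 1 := length_residue
    rw [length_pi_quot, h1, mul_one] at hl
    exact_mod_cast hl
  obtain ⟨J, hJ, hbig⟩ : ∃ J, 1 ≤ J ∧ ∀ i p, i < n → J ≤ p + (i + 1) →
      PP (F := fun n => Fin (b n) → R) (maximalIdeal R) d i p := by
    choose p0 hp0 using eventually_PP (F := fun n => Fin (b n) → R) h0 hex
    refine ⟨n + 1 + ∑ i ∈ Finset.range n, p0 i, by omega, fun i p hi h => ?_⟩
    have := Finset.single_le_sum (f := p0) (fun _ _ => Nat.zero_le _) (Finset.mem_range.mpr hi)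
    exact hp0 i p (by omega)
  obtain ⟨Z, hZb, hZdg, hZD⟩ := exists_res d hb h0 hex hmin
  obtain ⟨c, Γ, hrow, -⟩ := exists_gdata (R := R)
  have hQ : ∀ p, Z.Q p = maximalIdeal R ^ p • ⊤ := fun p => by rw [Res.Q, hm]
  have toP : ∀ n p, PP (F := fun n => Fin (b n) → R) (maximalIdeal R) d n p → Z.Pex (n + 1) p := by
    intro n p h x hx h1 h2
    rw [hQ] at h1 h2
    rw [hZb, hZdg] at hx
    rw [hZD, ← inj_prj b _ hx, totD_succ] at h2
    have h3 := map_mem_smul_top _ (prj b n) h2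
    rw [prj_inj] at h3
    obtain ⟨x', hx', _, ⟨y, hy, rfl⟩, h4⟩ := Submodule.mem_sup.mp
      (h _ (map_mem_smul_top _ (prj b (n + 1)) h1) h3)
    refine ⟨inj b _ y, ?_, ?_, ?_⟩
    · rw [hZb, hZdg]
      exact inj_mem b _ y
    · rw [hQ]
      exact map_mem_smul_top _ _ hy
    · rw [hQ, hZD, totD_succ, ← inj_prj b _ hx, ← h4, map_add, add_sub_cancel_right]
      exact map_mem_smul_top _ _ hx'
  have ofP : ∀ n p, Z.Pex (n + 1) p → PP (F := fun n => Fin (b n) → R) (maximalIdeal R) d n p := by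
    intro n p h x h1 h2
    obtain ⟨y, hy, h3, h4⟩ := h (inj b _ x) (by rw [hZb, hZdg]; exact inj_mem b _ x)
      (by rw [hQ]; exact map_mem_smul_top _ _ h1)
      (by rw [hQ, hZD, totD_succ]; exact map_mem_smul_top _ _ h2)
    rw [hQ] at h3 h4
    rw [hZb, hZdg] at hy
    rw [hZD, ← inj_prj b _ hy, totD_succ, ← map_sub] at h4
    have h5 := map_mem_smul_top _ (prj b (n + 1)) h4
    rw [prj_inj] at h5
    exact Submodule.mem_sup.mpr ⟨_, h5, _, ⟨_, map_mem_smul_top _ (prj b _) h3, rfl⟩, by abel⟩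
  have hP0 : ∀ p, 1 ≤ p → Z.Pex 0 p := by
    intro p hp x hx h1 _
    rw [hQ] at h1
    rw [hZb, hZdg] at hx
    obtain ⟨y, hy1, hy2⟩ := row_zero (F := fun n => Fin (b n) → R) h0 hp
      (map_mem_smul_top _ (prj b 0) h1)
    refine ⟨inj b _ y, ?_, ?_, ?_⟩
    · rw [hZb, hZdg]
      exact inj_mem b _ y
    · rw [hQ]
      exact map_mem_smul_top _ _ hy1
    · rw [hZD, totD_succ, hy2, inj_prj b _ hx, sub_self]
      exact Submodule.zero_mem _
  obtain ⟨E, _, _, H, φ, hdeg, hone, hφD, hφ⟩ := Z.exists_hopf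
  obtain ⟨L, hLb, hLrow, adj⟩ := Z.exists_lincx Γ H.toGAlg (Finsupp.basisSingleOne (R := E)) hdeg
    hone φ hφD hφ
  rw [← hLb] at adj
  have hex0 : ∀ q : ℤ, L.Ex q q := by
    intro q
    by_cases hq : q < 0
    · exact L.Ex_neg hq _
    obtain ⟨p, rfl⟩ := Int.eq_ofNat_of_zero_le (not_lt.mp hq)
    exact Z.toM0 Γ L hdeg hLrow adj p (hP0 p)
  have key : ∀ (i : ℕ) (q : ℤ), (∀ p : ℕ, q = p →
      PP (F := fun n => Fin (b n) → R) (maximalIdeal R) d i p) → L.Ex q (q + (i + 1 : ℕ)) := by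
    intro i q h
    by_cases hq : q < 0
    · exact L.Ex_neg hq _
    obtain ⟨p, rfl⟩ := Int.eq_ofNat_of_zero_le (not_lt.mp hq)
    exact Z.toM Γ L hdeg hLrow adj i p (toP i p (h p rfl))
  let ph : ∀ i p : ℕ, ↥(maximalIdeal R ^ p • (⊤ : Submodule R (Fin (b i) → R))) →ₗ[R] Z.Q p :=
    fun i p => (inj b i).restrict fun x hx => by rw [hQ]; exact map_mem_smul_top _ _ hx
  have ph_val : ∀ i p u, (ph i p u).1 = inj b i u.1 := fun i p u => rfl
  have dual : ∀ (i p : ℕ) (I : Submodule R (Fin (b i) → R)) (V : Submodule (ResidueField R) _),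
      (∀ z, z ∈ V ↔ z ∈ L.GM p (p + i : ℕ) ∧ ∀ u, u.1 ∈ maximalIdeal R ^ (p + 1) • ⊤ ⊔ I →
        Z.pr Γ H.toGAlg L.bM p (ph i p u) z = 0) →
      Module.length R (↥(maximalIdeal R ^ p • (⊤ : Submodule R (Fin (b i) → R))) ⧸
        (maximalIdeal R ^ (p + 1) • ⊤ ⊔ I).comap
          (maximalIdeal R ^ p • (⊤ : Submodule R (Fin (b i) → R))).subtype) =
        finrank (ResidueField R) V := by
    intro i p I V hV
    refine Z.dual_rank Γ H.toGAlg L.bM hdeg p i (ph i p) ?_ ?_ _ ?_ V ?_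
    · intro u
      rw [ph_val, hZb, hZdg]
      exact inj_mem b _ _
    · intro x hx
      rw [hZb, hZdg] at hx
      refine ⟨⟨prj b i x.1, map_mem_smul_top _ _ (hQ p ▸ x.2)⟩, Subtype.ext ?_⟩
      rw [ph_val]
      exact inj_prj b _ hx
    · intro u hu
      rw [ph_val, hQ] at hu
      have := map_mem_smul_top _ (prj b i) hu
      rw [prj_inj] at this
      exact Submodule.mem_sup_left this
    · intro z
      rw [hV, LinCx.GM, hLrow, Nat.cast_add]
      rfl
  have hq : ∀ i, Module.length R ((Fin (b i) → R) ⧸ maximalIdeal R ^ (J - i) •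
      (⊤ : Submodule R (Fin (b i) → R))) = (∑ p ∈ Finset.range (J - i),
        finrank (ResidueField R) (L.GM p (p + i : ℕ)) : ℕ) := by
    intro i
    have := length_tele (maximalIdeal R) (⊥ : Submodule R (Fin (b i) → R))
      (fun p => finrank (ResidueField R) (L.GM p (p + i : ℕ))) (fun p => dual i p ⊥ _ fun z =>
        ⟨fun hz => ⟨hz, fun u hu => Z.pr_zero Γ H.toGAlg L.bM p (by
          rw [sup_bot_eq] at hu
          rw [ph_val, hQ]
          exact map_mem_smul_top _ _ hu) z⟩, fun hz => hz.1⟩) (J - i)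
    rwa [sup_bot_eq] at this
  have hw := length_tele (maximalIdeal R) (LinearMap.range (d n))
    (fun p => finrank (ResidueField R) (L.GM p (p + n : ℕ) ⊓
      LinearMap.ker (L.d.restrictScalars (ResidueField R)) : Submodule (ResidueField R) _))
    (fun p => dual n p _ _ fun z => by
      refine and_congr_right fun hz => ⟨fun hdz u hu => ?_, fun h => ?_⟩
      · obtain ⟨x, hx, _, ⟨y, rfl⟩, hxy⟩ := Submodule.mem_sup.mp hu
        have h1 : d n y ∈ maximalIdeal R ^ p • (⊤ : Submodule R (Fin (b n) → R)) := by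
          rw [eq_sub_of_add_eq' hxy]
          exact Submodule.sub_mem _ u.2 (pow_smul_anti _ (by omega) hx)
        obtain ⟨y', hy1, hy2⟩ := push_down (F := fun n => Fin (b n) → R) hex hn h1
        refine Z.pr_bd Γ L adj hdz _ (y := inj b _ y') ?_ ?_
        · rw [hQ]
          exact map_mem_smul_top _ _ hy1
        · rw [ph_val, hZD, totD_succ, hy2, ← map_sub, ← hxy, add_sub_cancel_right, hQ]
          exact map_mem_smul_top _ _ hx
      · change L.d z = 0
        have h1 := L.d_GM hz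
        cases p with
        | zero => exact L.GM_zero (Or.inl (by simp)) h1
        | succ p =>
          rw [LinCx.GM, hLrow] at h1
          refine Z.nondeg Γ H.toGAlg L.bM hdeg p (n + 1) ?_ ?_
          · convert h1 using 2 <;> push_cast <;> ring
          · intro y hy
            rw [hZb, hZdg] at hy
            have h3 : y.1 ∈ maximalIdeal R ^ p • (⊤ : Submodule R _) := by
              rw [← hQ]
              exact y.2
            have h2 := map_mem_pow_succ (d n) (hmin n) (map_mem_smul_top _ (prj b (n + 1)) h3)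
            rw [adj, ← h ⟨_, h2⟩ (Submodule.mem_sup_right ⟨_, rfl⟩)]
            congr 2
            apply Subtype.ext
            change Z.D y.1 = _
            rw [ph_val, hZD, ← totD_succ, inj_prj b _ hy]) (J - n)
  have hχ := eulerW (F := fun n => Fin (b n) → R) h0 hex (maximalIdeal.isMaximal R).ne_top hJ hmin
    n hbig _ hq _ hw hl
  refine ofP e p (Z.toA Γ L hdeg hLrow adj (e + 1) p (by omega) ?_)
  refine L.straddle (L.GM_finite (by rw [hdeg]; exact Z.fin) (by rw [hLrow]; exact Γ.fin)) hJ hex0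
    ?_ (fun q => key n q fun p _ => hn p) ?_ (by omega) p ?_
  · intro q j h1 h2
    by_cases h3 : j ≤ q
    · exact L.Ex_le hex0 h3
    obtain ⟨i, rfl⟩ : ∃ i : ℕ, j = q + (i + 1 : ℕ) := ⟨(j - q - 1).toNat, by omega⟩
    exact key i q fun p hp => hbig i p (by omega) (by omega)
  · have h1 := congrArg (Int.cast : ℤ → ResidueField R) hχ
    push_cast at h1 ⊢
    exact h1
  · intro q i h1 h2
    rcases hyp q i h1 (by omega) with h3 | ⟨rfl, h3⟩ | ⟨i', rfl, h3⟩
    · exact Or.inl (key (i + e) _ fun p' hp => by rwa [← Nat.cast_injective hp])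
    · exact Or.inr ⟨by omega, L.Ex_le hex0 (by omega)⟩
    · exact Or.inr ⟨by omega, key i' _ fun p' hp => by rwa [← Nat.cast_injective hp]⟩

theorem PP_equiv {F F' : ℕ → Type} [∀ n, AddCommGroup (F n)] [∀ n, Module R (F n)]
    [∀ n, AddCommGroup (F' n)] [∀ n, Module R (F' n)] {m : Ideal R}
    {d : ∀ n, F (n + 1) →ₗ[R] F n} {d' : ∀ n, F' (n + 1) →ₗ[R] F' n} (e : ∀ n, F n ≃ₗ[R] F' n)
    (he : ∀ n x, d' n (e (n + 1) x) = e n (d n x)) {n p : ℕ} (h : PP m d n p) : PP m d' n p := by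
  intro x hx hdx
  obtain ⟨x, rfl⟩ := (e (n + 1)).surjective x
  rw [he] at hdx
  have h1 := map_mem_smul_top _ (e (n + 1)).symm.toLinearMap hx
  have h2 := map_mem_smul_top _ (e n).symm.toLinearMap hdx
  simp only [LinearEquiv.coe_coe, LinearEquiv.symm_apply_apply] at h1 h2
  obtain ⟨y, hy, _, ⟨z, hz, rfl⟩, rfl⟩ := Submodule.mem_sup.mp (h x h1 h2)
  rw [map_add, ← he]
  exact Submodule.add_mem_sup (map_mem_smul_top _ (e (n + 1)).toLinearMap hy)
    ⟨_, map_mem_smul_top _ (e (n + 1 + 1)).toLinearMap hz, rfl⟩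

theorem straddle_free [IsLocalRing R] [IsNoetherianRing R] {F : ℕ → Type}
    [∀ n, AddCommGroup (F n)] [∀ n, Module R (F n)] [∀ n, Module.Free R (F n)]
    [∀ n, Module.Finite R (F n)] (d : ∀ n, F (n + 1) →ₗ[R] F n)
    (ε : F 0 →ₗ[R] ResidueField R) (hε : Function.Surjective ε)
    (hker : LinearMap.ker ε = LinearMap.range (d 0))
    (hex : ∀ n, LinearMap.ker (d n) = LinearMap.range (d (n + 1)))
    (hmin : ∀ n, LinearMap.range (d n) ≤ maximalIdeal R • ⊤) (n : ℕ)
    (hn : ∀ p, PP (maximalIdeal R) d n p) (e p : ℕ)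
    (hyp : ∀ q i, i ≤ n → n < i + e → PP (maximalIdeal R) d (i + e) (q + p) ∨ (i = 0 ∧ q ≠ 0) ∨
      ∃ i', i = i' + 1 ∧ PP (maximalIdeal R) d i' q) : PP (maximalIdeal R) d e p := by
  let u : ∀ n, F n ≃ₗ[R] (Fin (finrank R (F n)) → R) := fun n => (finBasis R (F n)).equivFun
  let d' : ∀ n, (Fin (finrank R (F (n + 1))) → R) →ₗ[R] (Fin (finrank R (F n)) → R) :=
    fun n => (u n).toLinearMap ∘ₗ d n ∘ₗ (u (n + 1)).symm.toLinearMap
  have he : ∀ n x, d' n (u (n + 1) x) = u n (d n x) := fun n x => by simp [d']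
  have he' : ∀ n x, d n ((u (n + 1)).symm x) = (u n).symm (d' n x) := fun n x => by simp [d']
  have hr : ∀ n x, u n x ∈ LinearMap.range (d' n) ↔ x ∈ LinearMap.range (d n) := by
    intro n x
    constructor
    · rintro ⟨y, hy⟩
      exact ⟨(u (n + 1)).symm y, by rw [he', hy, LinearEquiv.symm_apply_apply]⟩
    · rintro ⟨y, rfl⟩
      exact ⟨_, he n y⟩
  have fw : ∀ {i q}, PP (maximalIdeal R) d i q →
      PP (F := fun n => Fin (finrank R (F n)) → R) (maximalIdeal R) d' i q :=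
    fun h => PP_equiv u he h
  refine PP_equiv (F := fun n => Fin (finrank R (F n)) → R) (d := d') (fun n => (u n).symm) he'
    (straddle_PP (b := fun n => finrank R (F n)) d' (ε ∘ₗ (u 0).symm.toLinearMap)
      (hε.comp (u 0).symm.surjective) ?_ ?_ ?_ n (fun p => fw (hn p)) e p ?_)
  · ext x
    obtain ⟨x, rfl⟩ := (u 0).surjective x
    rw [hr, ← hker]
    simp
  · intro n
    ext x
    obtain ⟨x, rfl⟩ := (u (n + 1)).surjective x
    rw [hr, ← hex, LinearMap.mem_ker, LinearMap.mem_ker, he, LinearEquiv.map_eq_zero_iff]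
  · intro n x hx
    obtain ⟨x, rfl⟩ := (u n).surjective x
    exact map_mem_smul_top _ (u n).toLinearMap (hmin n ((hr n x).mp hx))
  · intro q i h1 h2
    rcases hyp q i h1 h2 with h | h | ⟨i', h, h'⟩
    · exact Or.inl (fw h)
    · exact Or.inr (Or.inl h)
    · exact Or.inr (Or.inr ⟨i', h, fw h'⟩)

end Pool.Agent.MP_582538_al
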