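import Pool.Agent.MP_582538_al.Final

set_option autoImplicit false

namespace Pool.Agent.MP_582538_al

open Module

variable {k E B : Type} [Field k] [Ring E] [Algebra k E] {G : GAlg k E B}
variable {C M : Type} [AddCommGroup M] [Module E M] [Module k M] [IsScalarTower k E M]

theorem LinCx.bM_mem (L : LinCx G C M) (γ : C) : L.bM γ ∈ L.GM (L.row γ) (L.row γ) :=
  G.basis_mem_Gr L.bM (fun γ => L.row γ) (fun γ => L.row γ) γ

theorem LinCx.Ex_le (L : LinCx G C M) (hex0 : ∀ q : ℤ, L.Ex q q) {q j : ℤ} (h : j ≤ q) :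
    L.Ex q j := by
  rcases h.eq_or_lt with h | h
  · rw [h]
    exact hex0 q
  · intro z hz _ _
    exact ⟨0, Submodule.zero_mem _, by rw [L.GM_zero (Or.inr h) hz, map_zero]⟩

theorem LinCx.zero_of_le (L : LinCx G C M) (hex0 : ∀ q : ℤ, L.Ex q q) {q j : ℤ} (h : j ≤ q)
    {z : M} (hz : z ∈ L.GM q j) (hd : L.d z = 0) (ha : L.aug z = 0) : z = 0 := by
  obtain ⟨w, hw1, hw2⟩ := L.Ex_le hex0 h z hz hd ha
  rw [← hw2, L.GM_zero (Or.inr (by omega)) hw1, map_zero]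

/-- A chain map over the augmentation is the identity. -/
theorem LinCx.id_of_chain (L : LinCx G C M) (hex0 : ∀ q : ℤ, L.Ex q q) (φ : M →ₗ[E] M) (r0 : ℤ)
    (h : ∀ γ, (L.row γ : ℤ) ≤ r0 → φ (L.bM γ) ∈ L.GM (L.row γ) (L.row γ) ∧
      L.d (φ (L.bM γ)) = φ (L.d (L.bM γ)) ∧ L.aug (φ (L.bM γ)) = L.aug (L.bM γ))
    {r s : ℤ} (hr : r ≤ r0) {u : M} (hu : u ∈ L.GM r s) : φ u = u := by
  have key : ∀ q : ℕ, (q : ℤ) ≤ r0 → ∀ γ, L.row γ = q → φ (L.bM γ) = L.bM γ := by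
    intro q
    induction q using Nat.strong_induction_on with
    | _ q ih =>
      intro hq γ hγ
      obtain ⟨e1, e2, e3⟩ := h γ (by omega)
      have hd : φ (L.d (L.bM γ)) = L.d (L.bM γ) := by
        refine G.ext_Gr L.bM _ _ φ LinearMap.id _ _ ?_ (L.d_deg γ)
        intro γ' hγ'
        exact ih (L.row γ') (by omega) (by omega) γ' rfl
      rw [← sub_eq_zero]
      exact L.zero_of_le hex0 le_rfl (Submodule.sub_mem _ e1 (L.bM_mem γ))
        (by rw [map_sub, e2, hd, sub_self]) (by rw [map_sub, e3, sub_self])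
  refine G.ext_Gr L.bM _ _ φ LinearMap.id _ _ ?_ hu
  intro γ hγ
  exact key (L.row γ) (by omega) γ rfl

/-- The retract argument, degree by degree. -/
theorem retractW (L : LinCx G C M) {X ι : Type} [AddCommGroup X] [Module E X] [Module k X]
    [IsScalarTower k E X] (bX : Basis ι E X) (rw sh : ι → ℤ) (hsh : ∀ i, sh i ≤ rw i) (N : ℕ)
    (hN : ∀ i, 0 ≤ rw i + N) (dX : X →ₗ[E] X)
    (hdX : ∀ i, dX (bX i) ∈ G.Gr bX rw sh (rw i - 1) (sh i)) (hddX : ∀ x, dX (dX x) = 0)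
    (K : Submodule k X) (hK : ∀ β, ∀ x ∈ K, G.b β • x ∈ K) (Good : ℤ → ℤ → Prop)
    (hKex : ∀ r s, Good r s → ∀ x ∈ K, x ∈ G.Gr bX rw sh r s → dX x = 0 →
      ∃ w ∈ K, w ∈ G.Gr bX rw sh (r + 1) s ∧ dX w = x)
    (hK1 : ∀ r, Good r (r + 1))
    (P : X) (hP : P ∈ G.Gr bX rw sh 0 0) (hdP : dX P = 0)
    (hPK : ∀ β, β ≠ G.one → G.b β • P ∈ K) (t : X →ₗ[k] k) (htK : ∀ x ∈ K, t x = 0)
    (htP : t P = 1) (htd : ∀ x, t (dX x) = 0) (hte : ∀ β, β ≠ G.one → ∀ x, t (G.b β • x) = 0)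
    (ht0 : ∀ i, ¬ (rw i = 0 ∧ sh i = 0) → t (bX i) = 0)
    (hex0 : ∀ q : ℤ, L.Ex q q) (ι0 : M →ₗ[E] X)
    (hι1 : ∀ r s, ∀ m ∈ L.GM r s, ι0 m ∈ G.Gr bX rw sh r s)
    (hιd : ∀ m, dX (ι0 m) = ι0 (L.d m)) (hιt : ∀ m, t (ι0 m) = L.aug m)
    (hspan : ∀ r, ∀ x ∈ G.Gr bX rw sh r r, ∃ m ∈ L.GM r r, ∃ y,
      x - ι0 m - dX y ∈ Sp (G.kb bX) (fun v => rw v.2 = r ∧ sh v.2 < rw v.2))
    (p j : ℤ) (hpj : Good p j) : L.Ex p j := by
  classical
  have gprop : ∀ (g : X →ₗ[E] M) (r : ℤ), (∀ i, rw i = r → g (bX i) ∈ L.GM (rw i) (sh i) ∧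
      L.d (g (bX i)) = g (dX (bX i)) ∧ L.aug (g (bX i)) = t (bX i)) →
      ∀ s, ∀ u ∈ G.Gr bX rw sh r s, g u ∈ L.GM r s ∧ L.d (g u) = g (dX u) ∧
        L.aug (g u) = t u := by
    intro g r H s u hu
    refine ⟨?_, ?_, ?_⟩
    · refine G.map_Gr bX rw sh L.bM _ _ g r r s ?_ hu
      intro i hi
      have := (H i hi).1
      rw [hi] at this
      exact this
    · exact G.ext_Gr bX rw sh (L.d ∘ₗ g) (g ∘ₗ dX) r s (fun i hi => (H i hi).2.1) hu
    · refine Sp_ext (G.kb bX) (L.aug ∘ₗ g.restrictScalars k) t ?_ hu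
      rintro ⟨β, i⟩ ⟨hi, _⟩
      simp only [G.kb_apply, LinearMap.comp_apply, LinearMap.restrictScalars_apply, map_smul]
      by_cases hβ : β = G.one
      · rw [hβ, G.b_one, one_smul, one_smul]
        exact (H i hi).2.2
      · rw [hte β hβ]
        exact G.repr_smul_one L.bM hβ _ _
  obtain ⟨g, hg⟩ := solve (Q := M) bX (fun i => (rw i + N).toNat) dX (by
      intro i
      refine G.Sp_free bX (Sp_mono _ ?_ (hdX i))
      rintro ⟨β, i'⟩ ⟨h, _⟩
      have := hN i'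
      simp only at h ⊢
      omega)
    (fun i x y => x ∈ L.GM (rw i) (sh i) ∧ L.d x = y ∧ L.aug x = t (bX i)) (by
      intro i h H
      have low : ∀ r, r < rw i → ∀ s, ∀ u ∈ G.Gr bX rw sh r s, h u ∈ L.GM r s ∧
          L.d (h u) = h (dX u) ∧ L.aug (h u) = t u := by
        intro r hr
        refine gprop h r ?_
        intro i' hi'
        have := hN i'
        exact H i' (by omega)
      have neg : ∀ i', rw i' = rw i → sh i' < rw i' → h (dX (bX i')) = 0 := by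
        intro i' h1 h2
        obtain ⟨e1, e2, e3⟩ := low (rw i' - 1) (by omega) (sh i') _ (hdX i')
        exact L.zero_of_le hex0 (by omega) e1 (by rw [e2, hddX, map_zero]) (by rw [e3, htd])
      by_cases h0 : rw i = 0 ∧ sh i = 0
      · obtain ⟨e1, _, _⟩ := low (rw i - 1) (by omega) (sh i) _ (hdX i)
        refine ⟨t (bX i) • L.bM L.g0, ?_, ?_, ?_⟩
        · refine Submodule.smul_mem _ _ ?_
          have := L.bM_mem L.g0
          simp only [L.row_g0] at this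
          rw [h0.1, h0.2]
          exact this
        · rw [LinearMap.map_smul_of_tower, L.d_g0, smul_zero]
          exact (L.GM_zero (Or.inl (by omega)) e1).symm
        · rw [map_smul, L.aug_g0, smul_eq_mul, mul_one]
      rcases (hsh i).eq_or_lt with h1 | h1
      swap
      · exact ⟨0, Submodule.zero_mem _, by rw [map_zero, neg i rfl h1], by rw [map_zero, ht0 i h0]⟩
      obtain ⟨m, hm, y, hy⟩ := hspan (rw i) (bX i) (by
        have := G.basis_mem_Gr bX rw sh i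
        rwa [h1] at this)
      refine ⟨m, by rwa [h1], ?_, by rw [L.aug_GM (by omega) hm, ht0 i h0]⟩
      have e1 : h (dX (bX i - ι0 m - dX y)) = 0 := by
        refine Sp_ext (G.kb bX) ((h ∘ₗ dX).restrictScalars k) 0 ?_ hy
        rintro ⟨β, i'⟩ ⟨h2, h3⟩
        simp only [G.kb_apply, LinearMap.comp_apply, LinearMap.restrictScalars_apply, map_smul,
          LinearMap.zero_apply]
        rw [neg i' h2 h3, smul_zero]
      have e2 : (h ∘ₗ ι0) (L.d m) = L.d m := by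
        refine L.id_of_chain hex0 (h ∘ₗ ι0) (rw i - 1) ?_ le_rfl (L.d_GM hm)
        intro γ hγ
        obtain ⟨e3, e4, e5⟩ := low (L.row γ) (by omega) _ _ (hι1 _ _ _ (L.bM_mem γ))
        exact ⟨e3, by rw [LinearMap.comp_apply, e4, hιd, LinearMap.comp_apply],
          by rw [LinearMap.comp_apply, e5, hιt]⟩
      rw [map_sub dX, map_sub dX, hddX, sub_zero, hιd, map_sub, sub_eq_zero] at e1
      rw [e1]
      exact e2.symm)
  have hg' : ∀ r : ℤ, ∀ s, ∀ u ∈ G.Gr bX rw sh r s,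
      g u ∈ L.GM r s ∧ L.d (g u) = g (dX u) ∧ L.aug (g u) = t u :=
    fun r => gprop g r (fun i _ => hg i)
  have fprop : ∀ (f : M →ₗ[E] X) (r : ℤ), (∀ γ, (L.row γ : ℤ) = r →
      f (L.bM γ) ∈ G.Gr bX rw sh (L.row γ) (L.row γ) ∧ dX (f (L.bM γ)) = f (L.d (L.bM γ)) ∧
      f (L.bM γ) - L.aug (L.bM γ) • P ∈ K ∧ (γ = L.g0 → f (L.bM γ) = P)) →
      ∀ s, ∀ u ∈ L.GM r s, f u ∈ G.Gr bX rw sh r s ∧ dX (f u) = f (L.d u) ∧
        f u - L.aug u • P ∈ K := by
    intro f r H s u hu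
    refine ⟨?_, ?_, ?_⟩
    · refine G.map_Gr L.bM _ _ bX rw sh f r r s ?_ hu
      intro γ hγ
      have := (H γ hγ).1
      rw [← hγ]
      exact this
    · exact G.ext_Gr L.bM _ _ (dX ∘ₗ f) (f ∘ₗ L.d) r s (fun γ hγ => (H γ hγ).2.1) hu
    · refine Sp_map (G.kb L.bM) (f.restrictScalars k - L.aug.smulRight P) K ?_ hu
      rintro ⟨β, γ⟩ ⟨hγ, _⟩
      simp only [G.kb_apply, LinearMap.sub_apply, LinearMap.restrictScalars_apply, map_smul,
        LinearMap.smulRight_apply]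
      by_cases hβ : β = G.one
      · rw [hβ, G.b_one, one_smul, one_smul]
        exact (H γ hγ).2.2.1
      · rw [L.aug_basis, if_neg (by tauto), zero_smul, sub_zero]
        by_cases hγ0 : γ = L.g0
        · rw [(H γ hγ).2.2.2 hγ0]
          exact hPK β hβ
        · apply hK
          have h3 := (H γ hγ).2.2.1
          have h4 := L.aug_basis G.one γ
          rw [G.b_one, one_smul, if_neg (by tauto)] at h4
          rwa [h4, zero_smul, sub_zero] at h3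
  obtain ⟨f, hf⟩ := solve (Q := X) L.bM L.row L.d (by
      intro γ
      refine G.Sp_free L.bM (Sp_mono _ ?_ (L.d_deg γ))
      rintro ⟨β, γ'⟩ ⟨h, _⟩
      simp only at h ⊢
      omega)
    (fun γ x y => x ∈ G.Gr bX rw sh (L.row γ) (L.row γ) ∧ dX x = y ∧
      x - L.aug (L.bM γ) • P ∈ K ∧ (γ = L.g0 → x = P)) (by
      intro γ h H
      by_cases hγ : γ = L.g0
      · subst hγ
        refine ⟨P, ?_, ?_, ?_, fun _ => rfl⟩
        · simpa [L.row_g0] using hP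
        · rw [hdP, L.d_g0, map_zero]
        · rw [L.aug_g0, one_smul, sub_self]
          exact K.zero_mem
      · obtain ⟨e1, e2, e3⟩ := fprop h (L.row γ - 1) (by
          intro γ' hγ'
          exact H γ' (by omega)) (L.row γ) _ (L.d_deg γ)
        rw [L.aug_GM (by omega) (L.d_deg γ), zero_smul, sub_zero] at e3
        obtain ⟨w, hw1, hw2, hw3⟩ := hKex _ _ (by simpa using hK1 (L.row γ - 1)) _ e3 e1
          (by rw [e2, L.dd, map_zero])
        rw [sub_add_cancel] at hw2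
        refine ⟨w, hw2, hw3, ?_, fun h => absurd h hγ⟩
        have h4 := L.aug_basis G.one γ
        rw [G.b_one, one_smul, if_neg (by tauto)] at h4
        rwa [h4, zero_smul, sub_zero])
  have hf' : ∀ r s, ∀ u ∈ L.GM r s, f u ∈ G.Gr bX rw sh r s ∧ dX (f u) = f (L.d u) ∧
        f u - L.aug u • P ∈ K := fun r => fprop f r (fun γ _ => hf γ)
  intro z hz hdz haz
  obtain ⟨e1, e2, e3⟩ := hf' _ _ _ hz
  rw [haz, zero_smul, sub_zero] at e3
  obtain ⟨w, _, hw2, hw3⟩ := hKex _ _ hpj _ e3 e1 (by rw [e2, hdz, map_zero])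
  obtain ⟨e4, e5, _⟩ := hg' _ _ _ hw2
  refine ⟨g w, e4, ?_⟩
  rw [e5, hw3]
  refine L.id_of_chain hex0 (g ∘ₗ f) p ?_ le_rfl hz
  intro γ _
  obtain ⟨e6, e7, e8⟩ := hf' _ _ _ (L.bM_mem γ)
  obtain ⟨e9, e10, e11⟩ := hg' _ _ _ e6
  refine ⟨e9, by rw [LinearMap.comp_apply, e10, e7, LinearMap.comp_apply], ?_⟩
  have := htK _ e8
  rw [map_sub, map_smul, htP, smul_eq_mul, mul_one, sub_eq_zero] at this
  rw [LinearMap.comp_apply, e11, this]

end Pool.Agent.MP_582538_al
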